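import Mathlib

set_option autoImplicit false
set_option linter.unusedSectionVars false
set_option linter.unusedSimpArgs false
set_option linter.unnecessarySeqFocus false

open Finset Matrix

namespace Pool.Agent.Results.MP_5e3363_co.DominatingCircuits

/-!
Every dominating circuit of a cubic graph belongs to a circuit double cover.

Outline. Let C be the circuit. Colour the edges of C by a finite set so that the colour classes,
extended over the remaining edges, are even subgraphs: at a vertex p of C the two C-edges get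
different colours, the third edge gets both colours; at a vertex off C each colour occurs on zero
or two of the three edges. Such colourings are kernels of symmetric matrices over F_2 whose
diagonal is free and in which, for every vertex off C, one further off-diagonal pair of entries
is free. Let P(x) be the sum over all choices of the free entries of (sign) * x ^ (corank). If no
choice gives a colouring then P(2^d) = 0 for all d, so P = 0. But at x = -2 the three local states
of an index sum to zero, which gives P(-2) = 4^r * (odd number), r the number of vertices off C.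
-/

section graph

/-- A finite loopless multigraph with vertex type V and edge type E; parallel edges are allowed. -/
structure MGraph (V E : Type) where
  ends : E → Sym2 V
  loopless : ∀ e, ¬ (ends e).IsDiag

variable {V E : Type} [Fintype V] [DecidableEq V] [Fintype E] [DecidableEq E]

/-- The degree of the vertex v in the subgraph with edge set F. -/
def dg (G : MGraph V E) (F : Finset E) (v : V) : ℕ := (F.filter fun e => v ∈ G.ends e).card

/-- Two edges share a vertex. -/
def Touch (G : MGraph V E) (e f : E) : Prop := ∃ v, v ∈ G.ends e ∧ v ∈ G.ends f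

/-- C is (the edge set of) a circuit: a nonempty connected 2-regular subgraph. Connected: any two
edges of C are joined by a chain of edges of C in which consecutive edges share a vertex. -/
def IsCircuit (G : MGraph V E) (C : Finset E) : Prop :=
  C.Nonempty ∧ (∀ v, dg G C v = 0 ∨ dg G C v = 2) ∧
    ∀ e ∈ C, ∀ f ∈ C, Relation.ReflTransGen (fun a b => b ∈ C ∧ Touch G a b) e f

/-- Every vertex has degree 3. -/
def IsCubic (G : MGraph V E) : Prop := ∀ v, dg G univ v = 3

/-- Every edge of G has an end on C. -/
def IsDominating (G : MGraph V E) (C : Finset E) : Prop :=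
  ∀ e, ∃ v ∈ G.ends e, ∃ f ∈ C, v ∈ G.ends f

/-- A circuit double cover: a finite family (multiset) of circuits such that every edge lies in
exactly two members, counted with multiplicity. -/
def IsCDC (G : MGraph V E) (F : Multiset (Finset E)) : Prop :=
  (∀ X ∈ F, IsCircuit G X) ∧ ∀ e, F.countP (fun X => e ∈ X) = 2

end graph

section algebra


/-- local states -/
inductive St | X | Y | Z
deriving DecidableEq

variable {N : Type} [Fintype N] [DecidableEq N]

abbrev F2 := ZMod 2
abbrev Vec (N : Type) := N → ZMod 2

/-- local condition -/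
def cnd (c : St) (a b : ZMod 2) : ZMod 2 :=
  match c with
  | St.X => a
  | St.Y => b
  | St.Z => a + b

/-- linear form -/
def lf (A : Matrix N N (ZMod 2)) (c : St) (i : N) : (N → ZMod 2) →ₗ[ZMod 2] ZMod 2 where
  toFun x := cnd c (x i) ((A *ᵥ x) i)
  map_add' x y := by
    cases c <;> simp [cnd, mulVec_add] <;> ring
  map_smul' a x := by
    cases c <;> simp [cnd, mulVec_smul] <;> ring

/-- the space of a state -/
def KK (A : Matrix N N (ZMod 2)) (τ : N → St) : Submodule (ZMod 2) (N → ZMod 2) :=
  ⨅ i, LinearMap.ker (lf A (τ i) i)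

theorem mem_KK {A : Matrix N N (ZMod 2)} {τ : N → St} {x : N → ZMod 2} :
    x ∈ KK A τ ↔ ∀ i, cnd (τ i) (x i) ((A *ᵥ x) i) = 0 := by
  simp [KK, lf]

/-- the space with the condition at i dropped -/
def KD (A : Matrix N N (ZMod 2)) (τ : N → St) (i : N) : Submodule (ZMod 2) (N → ZMod 2) :=
  ⨅ j : {j // j ≠ i}, LinearMap.ker (lf A (τ j) j)

theorem mem_KD {A : Matrix N N (ZMod 2)} {τ : N → St} {i : N} {x : N → ZMod 2} :
    x ∈ KD A τ i ↔ ∀ j, j ≠ i → cnd (τ j) (x j) ((A *ᵥ x) j) = 0 := by
  simp [KD, lf]

theorem KK_update (A : Matrix N N (ZMod 2)) (τ : N → St) (i : N) (c : St) :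
    KK A (Function.update τ i c) = KD A τ i ⊓ LinearMap.ker (lf A c i) := by
  ext x
  rw [mem_KK, Submodule.mem_inf, mem_KD, LinearMap.mem_ker]
  constructor
  · intro h
    refine ⟨fun j hj => ?_, ?_⟩
    · have := h j
      rwa [Function.update_of_ne hj] at this
    · have := h i
      rwa [Function.update_self] at this
  · rintro ⟨h1, h2⟩ j
    by_cases hj : j = i
    · subst hj
      rw [Function.update_self]
      exact h2
    · rw [Function.update_of_ne hj]
      exact h1 j hj

/-- a functional cuts the dimension by one -/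
theorem finrank_cut (K : Submodule (ZMod 2) (N → ZMod 2)) (φ : (N → ZMod 2) →ₗ[ZMod 2] ZMod 2)
    (h : ∃ x ∈ K, φ x ≠ 0) :
    Module.finrank (ZMod 2) K = Module.finrank (ZMod 2) (K ⊓ LinearMap.ker φ : Submodule _ _) + 1 := by
  obtain ⟨x, hx, hne⟩ := h
  have h1 := LinearMap.finrank_range_add_finrank_ker (φ.domRestrict K)
  have h2 : LinearMap.range (φ.domRestrict K) = ⊤ := by
    rw [LinearMap.range_eq_top]
    intro c
    refine ⟨(c * (φ x)⁻¹) • ⟨x, hx⟩, ?_⟩
    simp [LinearMap.domRestrict_apply, hne]
  rw [h2, finrank_top, Module.finrank_self] at h1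
  have h3 : Module.finrank (ZMod 2) (LinearMap.ker (φ.domRestrict K)) =
      Module.finrank (ZMod 2) (K ⊓ LinearMap.ker φ : Submodule _ _) := by
    have e : LinearMap.ker (φ.domRestrict K) = Submodule.comap K.subtype (LinearMap.ker φ) := by
      ext y
      simp [LinearMap.domRestrict_apply]
    rw [e]
    have := (Submodule.comapSubtypeEquivOfLe (p := K ⊓ LinearMap.ker φ) (q := K) inf_le_left).finrank_eq
    rw [← this, Submodule.comap_inf, Submodule.comap_subtype_self, top_inf_eq]
  omega

/-- the bilinear form is symmetric -/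
theorem sym_form (A : Matrix N N (ZMod 2)) (hA : A.IsSymm) (x y : N → ZMod 2) :
    ∑ j, x j * (A *ᵥ y) j = ∑ j, y j * (A *ᵥ x) j := by
  have : x ⬝ᵥ (A *ᵥ y) = y ⬝ᵥ (A *ᵥ x) := by
    rw [dotProduct_mulVec, ← mulVec_transpose, hA.eq, dotProduct_comm]
  exact this

theorem z2_cases (a : ZMod 2) : a = 0 ∨ a = 1 := by
  revert a; decide

theorem isotropy (A : Matrix N N (ZMod 2)) (hA : A.IsSymm) (τ : N → St) (i : N)
    {x y : N → ZMod 2} (hx : x ∈ KD A τ i) (hy : y ∈ KD A τ i) :
    x i * (A *ᵥ y) i = y i * (A *ᵥ x) i := by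
  rw [mem_KD] at hx hy
  have h := sym_form A hA x y
  rw [← Finset.add_sum_erase _ _ (mem_univ i), ← Finset.add_sum_erase _ _ (mem_univ i)] at h
  have h2 : ∑ j ∈ univ.erase i, x j * (A *ᵥ y) j = ∑ j ∈ univ.erase i, y j * (A *ᵥ x) j := by
    refine sum_congr rfl fun j hj => ?_
    have hj' : j ≠ i := ne_of_mem_erase hj
    have a1 := hx j hj'
    have a2 := hy j hj'
    revert a1 a2
    generalize τ j = c
    generalize x j = a
    generalize y j = b
    generalize (A *ᵥ x) j = d
    generalize (A *ᵥ y) j = e
    revert a b d e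
    cases c <;> simp only [cnd] <;> decide
  rw [h2] at h
  exact add_right_cancel h

/-- duality: if all members vanish at i then some member has nonzero image there -/
theorem dual_exists (A : Matrix N N (ZMod 2)) (hA : A.IsSymm) (τ : N → St) (i : N)
    (h : ∀ x ∈ KD A τ i, x i = 0) : ∃ z ∈ KD A τ i, (A *ᵥ z) i ≠ 0 := by
  classical
  let Φ : (N → ZMod 2) →ₗ[ZMod 2] (N → ZMod 2) :=
    LinearMap.pi fun j => lf A (Function.update τ i St.X j) j
  have hΦ : ∀ x j, Φ x j = cnd (Function.update τ i St.X j) (x j) ((A *ᵥ x) j) := fun x j => rfl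
  have hnot : (Pi.single i 1 : N → ZMod 2) ∉ LinearMap.range Φ := by
    rintro ⟨x, hx⟩
    have hxK : x ∈ KD A τ i := by
      rw [mem_KD]
      intro j hj
      have := congrFun hx j
      rw [hΦ, Function.update_of_ne hj, Pi.single_eq_of_ne hj] at this
      exact this
    have := congrFun hx i
    rw [hΦ, Function.update_self, Pi.single_eq_same] at this
    simp only [cnd] at this
    rw [h x hxK] at this
    exact zero_ne_one this
  obtain ⟨f, hf1, hf2⟩ := Submodule.exists_dual_map_eq_bot_of_notMem hnot inferInstance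
  have hf3 : ∀ x, f (Φ x) = 0 := by
    intro x
    have : f (Φ x) ∈ (LinearMap.range Φ).map f := ⟨Φ x, ⟨x, rfl⟩, rfl⟩
    rw [hf2] at this
    exact this
  obtain ⟨y, hy⟩ : ∃ y : N → ZMod 2, ∀ v, f v = ∑ j, y j * v j := by
    refine ⟨fun j => f (Pi.single j 1), fun v => ?_⟩
    conv_lhs => rw [pi_eq_sum_univ' v]
    rw [map_sum]
    refine sum_congr rfl fun j _ => ?_
    rw [map_smul, smul_eq_mul, mul_comm]
  have hyi : y i = 1 := by
    have := hy (Pi.single i 1)
    rw [sum_eq_single i] at this
    · rw [Pi.single_eq_same, mul_one] at this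
      rcases z2_cases (y i) with h0 | h0
      · rw [h0] at this; exact absurd this hf1
      · exact h0
    · intro j _ hj
      rw [Pi.single_eq_of_ne hj, mul_zero]
    · simp
  -- the vector z
  let b : N → ZMod 2 := fun j => cnd (Function.update τ i St.X j) 0 1
  let a : N → ZMod 2 := fun j => cnd (Function.update τ i St.X j) 1 0
  have hcnd : ∀ j (p q : ZMod 2), cnd (Function.update τ i St.X j) p q = a j * p + b j * q := by
    intro j p q
    simp only [a, b]
    cases Function.update τ i St.X j <;> simp [cnd]
  have key : ∀ k, a k * y k + (A *ᵥ fun j => b j * y j) k = 0 := by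
    intro k
    have h1 := hf3 (Pi.single k 1)
    rw [hy] at h1
    have h2 : ∀ j, y j * Φ (Pi.single k 1) j =
        (if j = k then a k * y k else 0) + A k j * (b j * y j) := by
      intro j
      rw [hΦ, hcnd]
      have h3 : (A *ᵥ Pi.single k 1) j = A k j := by
        rw [mulVec_single_one]
        have := congrFun (congrFun hA.eq k) j
        rw [transpose_apply] at this
        exact this
      rw [h3]
      by_cases hj : j = k
      · subst hj
        rw [Pi.single_eq_same, if_pos rfl]
        ring
      · rw [Pi.single_eq_of_ne hj, if_neg hj]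
        ring
    simp only [h2] at h1
    rw [sum_add_distrib, sum_ite_eq' univ k, if_pos (mem_univ k)] at h1
    exact h1
  refine ⟨fun j => b j * y j, ?_, ?_⟩
  · rw [mem_KD]
    intro j hj
    have hk := key j
    have e1 : a j = cnd (τ j) 1 0 := by simp only [a]; rw [Function.update_of_ne hj]
    have e2 : b j = cnd (τ j) 0 1 := by simp only [b]; rw [Function.update_of_ne hj]
    rw [e1] at hk
    revert hk
    show cnd (τ j) 1 0 * y j + (A *ᵥ fun j => b j * y j) j = 0 →
      cnd (τ j) (b j * y j) ((A *ᵥ fun j => b j * y j) j) = 0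
    generalize (A *ᵥ fun j => b j * y j) j = w
    rw [e2]
    generalize y j = v
    revert v w
    cases τ j <;> simp only [cnd] <;> decide
  · have hk := key i
    have e1 : a i = 1 := by simp only [a]; rw [Function.update_self]; rfl
    rw [e1, hyi] at hk
    intro h0
    rw [h0] at hk
    simp at hk

/-- weight of a state -/
noncomputable def wt (A : Matrix N N (ZMod 2)) (τ : N → St) : ℤ :=
  (-2) ^ Module.finrank (ZMod 2) (KK A τ)

/-- the binor identity -/
theorem binor (A : Matrix N N (ZMod 2)) (hA : A.IsSymm) (τ : N → St) (i : N) :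
    wt A (Function.update τ i St.X) + wt A (Function.update τ i St.Y) +
      wt A (Function.update τ i St.Z) = 0 := by
  unfold wt
  rw [KK_update, KK_update, KK_update]
  by_cases h : ∃ x ∈ KD A τ i, x i ≠ 0
  · obtain ⟨x0, hx0, hne⟩ := h
    have hx1 : x0 i = 1 := (z2_cases _).resolve_left hne
    have hq : ∀ x ∈ KD A τ i, (A *ᵥ x) i = (A *ᵥ x0) i * x i := by
      intro x hx
      have := isotropy A hA τ i hx hx0
      rw [hx1, one_mul] at this
      rw [← this, mul_comm]
    have hc := finrank_cut (KD A τ i) (lf A St.X i) ⟨x0, hx0, by simpa [lf, cnd] using hne⟩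
    rcases z2_cases ((A *ᵥ x0) i) with h0 | h0
    · have e1 : KD A τ i ⊓ LinearMap.ker (lf A St.Y i) = KD A τ i := by
        refine inf_eq_left.2 fun x hx => ?_
        simp [lf, cnd, hq x hx, h0]
      have e2 : KD A τ i ⊓ LinearMap.ker (lf A St.Z i) = KD A τ i ⊓ LinearMap.ker (lf A St.X i) := by
        ext x
        simp only [Submodule.mem_inf, LinearMap.mem_ker, and_congr_right_iff]
        intro hx
        simp [lf, cnd, hq x hx, h0]
      rw [e1, e2, hc]
      ring
    · have e1 : KD A τ i ⊓ LinearMap.ker (lf A St.Z i) = KD A τ i := by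
        refine inf_eq_left.2 fun x hx => ?_
        simp [lf, cnd, hq x hx, h0, CharTwo.add_self_eq_zero]
      have e2 : KD A τ i ⊓ LinearMap.ker (lf A St.Y i) = KD A τ i ⊓ LinearMap.ker (lf A St.X i) := by
        ext x
        simp only [Submodule.mem_inf, LinearMap.mem_ker, and_congr_right_iff]
        intro hx
        simp [lf, cnd, hq x hx, h0]
      rw [e1, e2, hc]
      ring
  · push Not at h
    obtain ⟨z, hz, hzne⟩ := dual_exists A hA τ i h
    have hc := finrank_cut (KD A τ i) (lf A St.Y i) ⟨z, hz, by simpa [lf, cnd] using hzne⟩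
    have e1 : KD A τ i ⊓ LinearMap.ker (lf A St.X i) = KD A τ i := by
      refine inf_eq_left.2 fun x hx => ?_
      simp [lf, cnd, h x hx]
    have e2 : KD A τ i ⊓ LinearMap.ker (lf A St.Z i) = KD A τ i ⊓ LinearMap.ker (lf A St.Y i) := by
      ext x
      simp only [Submodule.mem_inf, LinearMap.mem_ker, and_congr_right_iff]
      intro hx
      simp [lf, cnd, h x hx]
    rw [e1, e2, hc]
    ring


/-- overriding -/
def ov (T : Finset N) (g τ : N → St) : N → St := fun i => if i ∈ T then g i else τ i

theorem ov_update {T : Finset N} {a : N} (ha : a ∉ T) (g τ : N → St) (c : St) :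
    ov T g (Function.update τ a c) = Function.update (ov T g τ) a c := by
  funext i
  unfold ov
  by_cases hi : i = a
  · subst hi
    rw [if_neg ha, Function.update_self, Function.update_self]
  · rw [Function.update_of_ne hi, Function.update_of_ne hi]

/-- expansion of the signed sum -/
theorem expansion (f : (N → St) → ℤ)
    (hf : ∀ τ i, f (Function.update τ i St.X) + f (Function.update τ i St.Y) +
      f (Function.update τ i St.Z) = 0) (T : Finset N) : ∀ τ : N → St,
    ∑ S ∈ T.powerset, (-1) ^ S.card * f (ov T (fun i => if i ∈ S then St.Z else St.Y) τ) =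
    ∑ S ∈ T.powerset, 2 ^ S.card * f (ov T (fun i => if i ∈ S then St.Y else St.X) τ) := by
  classical
  induction T using Finset.induction_on with
  | empty =>
    intro τ
    have h0 : ∀ g : N → St, ov ∅ g τ = τ := by intro g; funext i; simp [ov]
    rw [powerset_empty, sum_singleton, sum_singleton, h0, h0]
    simp
  | insert a T ha ih =>
    intro τ
    rw [sum_powerset_insert ha, sum_powerset_insert ha]
    have hcard : ∀ S ∈ T.powerset, (insert a S).card = S.card + 1 := by
      intro S hS
      exact card_insert_of_notMem fun h => ha (mem_powerset.1 hS h)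
    have h1 : ∀ (c d : St), ∀ S ∈ T.powerset,
        ov (insert a T) (fun i => if i ∈ S then c else d) τ =
        ov T (fun i => if i ∈ S then c else d) (Function.update τ a d) := by
      intro c d S hS
      have haS : a ∉ S := fun h => ha (mem_powerset.1 hS h)
      funext i
      unfold ov
      by_cases hi : i = a
      · subst hi
        simp [ha, haS]
      · simp [hi]
    have h2 : ∀ (c d : St), ∀ S ∈ T.powerset,
        ov (insert a T) (fun i => if i ∈ insert a S then c else d) τ =
        ov T (fun i => if i ∈ S then c else d) (Function.update τ a c) := by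
      intro c d S hS
      funext i
      unfold ov
      by_cases hi : i = a
      · subst hi
        simp [ha]
      · simp [hi]
    have e0 : ∑ S ∈ T.powerset, (-1) ^ S.card *
        f (ov (insert a T) (fun i => if i ∈ S then St.Z else St.Y) τ) =
        ∑ S ∈ T.powerset, 2 ^ S.card *
          f (ov T (fun i => if i ∈ S then St.Y else St.X) (Function.update τ a St.Y)) := by
      rw [← ih]
      exact sum_congr rfl fun S hS => by rw [h1 St.Z St.Y S hS]
    have e1 : ∑ S ∈ T.powerset, (-1) ^ (insert a S).card *
        f (ov (insert a T) (fun i => if i ∈ insert a S then St.Z else St.Y) τ) =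
        - ∑ S ∈ T.powerset, 2 ^ S.card *
          f (ov T (fun i => if i ∈ S then St.Y else St.X) (Function.update τ a St.Z)) := by
      rw [← ih, ← sum_neg_distrib]
      refine sum_congr rfl fun S hS => ?_
      rw [hcard S hS, h2 St.Z St.Y S hS, pow_succ]; ring
    have e2 : ∑ S ∈ T.powerset, 2 ^ S.card *
        f (ov (insert a T) (fun i => if i ∈ S then St.Y else St.X) τ) =
        ∑ S ∈ T.powerset, 2 ^ S.card *
          f (ov T (fun i => if i ∈ S then St.Y else St.X) (Function.update τ a St.X)) :=
      sum_congr rfl fun S hS => by rw [h1 St.Y St.X S hS]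
    have e3 : ∑ S ∈ T.powerset, 2 ^ (insert a S).card *
        f (ov (insert a T) (fun i => if i ∈ insert a S then St.Y else St.X) τ) =
        ∑ S ∈ T.powerset, 2 ^ (S.card + 1) *
          f (ov T (fun i => if i ∈ S then St.Y else St.X) (Function.update τ a St.Y)) :=
      sum_congr rfl fun S hS => by rw [hcard S hS, h2 St.Y St.X S hS]
    rw [e0, e1, e2, e3, ← sum_neg_distrib, ← sum_add_distrib, ← sum_add_distrib]
    refine sum_congr rfl fun S _ => ?_
    rw [ov_update ha, ov_update ha, ov_update ha]
    have := hf (ov T (fun i => if i ∈ S then St.Y else St.X) τ) a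
    rw [pow_succ]
    linear_combination (-(2:ℤ) ^ S.card) * this

/-- sign character -/
def sg (a : ZMod 2) : ℤ := if a = 0 then 1 else -1

theorem sg_add_one (a : ZMod 2) : sg (a + 1) = - sg a := by
  rcases z2_cases a with h | h <;> subst h <;> decide

/-- sign of a vector -/
def sgn {M : Type} [Fintype M] (v : M → ZMod 2) : ℤ := ∏ i, sg (v i)

theorem sgn_add_single {M : Type} [Fintype M] [DecidableEq M] (v : M → ZMod 2) (i : M) :
    sgn (v + Pi.single i 1) = - sgn v := by
  unfold sgn
  rw [← mul_prod_erase _ _ (mem_univ i), ← mul_prod_erase _ _ (mem_univ i)]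
  have : ∏ x ∈ univ.erase i, sg ((v + (Pi.single i 1 : M → ZMod 2)) x) =
      ∏ x ∈ univ.erase i, sg (v x) := by
    refine prod_congr rfl fun x hx => ?_
    rw [Pi.add_apply, Pi.single_eq_of_ne (ne_of_mem_erase hx), add_zero]
  rw [this, Pi.add_apply, Pi.single_eq_same, sg_add_one]
  ring

theorem sgn_sq {M : Type} [Fintype M] (v : M → ZMod 2) : sgn v = 1 ∨ sgn v = -1 := by
  unfold sgn
  induction (univ : Finset M) using Finset.cons_induction with
  | empty => simp
  | cons a s ha ih =>
    rw [prod_cons]
    have h1 : sg (v a) = 1 ∨ sg (v a) = -1 := by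
      rcases z2_cases (v a) with h | h <;> rw [h] <;> decide
    rcases h1 with h | h <;> rcases ih with h' | h' <;> rw [h, h'] <;> norm_num

/-- vectors over F2 as finsets -/
theorem sum_vec {M : Type} [Fintype M] [DecidableEq M] (F : (M → ZMod 2) → ℤ) :
    ∑ t : M → ZMod 2, F t = ∑ S : Finset M, F (fun i => if i ∈ S then 1 else 0) := by
  symm
  refine Fintype.sum_bijective (fun S : Finset M => fun i => if i ∈ S then (1 : ZMod 2) else 0)
    ⟨?_, ?_⟩ _ _ (fun _ => rfl)
  · intro S S' h
    ext i
    have := congrFun h i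
    by_cases h1 : i ∈ S <;> by_cases h2 : i ∈ S' <;> simp_all
  · intro t
    refine ⟨univ.filter fun i => t i = 1, ?_⟩
    funext i
    rcases z2_cases (t i) with h | h <;> simp [h]

theorem sgn_ind {M : Type} [Fintype M] [DecidableEq M] (S : Finset M) :
    sgn (fun i => if i ∈ S then (1 : ZMod 2) else 0) = (-1) ^ S.card := by
  unfold sgn
  have : ∀ i, sg (if i ∈ S then (1 : ZMod 2) else 0) = if i ∈ S then (-1 : ℤ) else 1 := by
    intro i
    by_cases h : i ∈ S <;> simp [h, sg]
  simp only [this]
  rw [prod_ite, prod_const, prod_const_one, mul_one]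
  congr 2
  ext; simp

/-- full states -/
def full (t : N → ZMod 2) : N → St := fun i => if t i = 0 then St.Y else St.Z

/-- Expansion of the signed sum over all full states. -/
theorem expansion_full (f : (N → St) → ℤ)
    (hf : ∀ τ i, f (Function.update τ i St.X) + f (Function.update τ i St.Y) +
      f (Function.update τ i St.Z) = 0) :
    ∑ t : N → ZMod 2, sgn t * f (full t) =
    ∑ S : Finset N, 2 ^ S.card * f (fun i => if i ∈ S then St.Y else St.X) := by
  have h := expansion f hf univ (fun _ => St.X)
  rw [powerset_univ] at h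
  have hov : ∀ g : N → St, ov univ g (fun _ => St.X) = g := by
    intro g; funext i; simp [ov]
  simp only [hov] at h
  rw [← h, sum_vec]
  refine sum_congr rfl fun S _ => ?_
  rw [sgn_ind]
  congr 2
  funext i
  unfold full
  by_cases hi : i ∈ S <;> simp [hi]


/-- clearing indices -/
def clr (W : Finset N) (A : Matrix N N (ZMod 2)) : Matrix N N (ZMod 2) :=
  Matrix.of fun i j => if i ∉ W ∧ j ∉ W then A i j else if i = j then 1 else 0

theorem clr_apply (W : Finset N) (A : Matrix N N (ZMod 2)) (i j : N) :
    clr W A i j = if i ∉ W ∧ j ∉ W then A i j else if i = j then 1 else 0 := rfl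

theorem clr_mulVec (W : Finset N) (A : Matrix N N (ZMod 2)) (x : N → ZMod 2) :
    clr W A *ᵥ x = 0 ↔ (∀ i ∈ W, x i = 0) ∧ ∀ i ∉ W, (A *ᵥ x) i = 0 := by
  constructor
  · intro h
    have h1 : ∀ i ∈ W, x i = 0 := by
      intro i hi
      have := congrFun h i
      rw [mulVec, dotProduct, sum_eq_single i] at this
      · rw [clr_apply] at this
        simpa [hi] using this
      · intro j _ hj
        rw [clr_apply]
        simp [hi, hj.symm]
      · simp
    refine ⟨h1, fun i hi => ?_⟩
    have := congrFun h i
    rw [Pi.zero_apply] at this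
    rw [← this, mulVec, mulVec, dotProduct, dotProduct]
    refine sum_congr rfl fun j _ => ?_
    by_cases hj : j ∈ W
    · rw [h1 j hj, mul_zero, mul_zero]
    · rw [clr_apply, if_pos ⟨hi, hj⟩]
  · rintro ⟨h1, h2⟩
    funext i
    by_cases hi : i ∈ W
    · rw [mulVec, dotProduct, sum_eq_single i]
      · rw [h1 i hi, mul_zero]; rfl
      · intro j _ hj
        rw [clr_apply]
        simp [hi, hj.symm]
      · simp
    · rw [Pi.zero_apply, ← h2 i hi, mulVec, mulVec, dotProduct, dotProduct]
      refine sum_congr rfl fun j _ => ?_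
      by_cases hj : j ∈ W
      · rw [h1 j hj, mul_zero, mul_zero]
      · rw [clr_apply, if_pos ⟨hi, hj⟩]

theorem det_eq_of_ker (M M' : Matrix N N (ZMod 2)) (h : ∀ x, M *ᵥ x = 0 ↔ M' *ᵥ x = 0) :
    M.det = M'.det := by
  have h1 : M.det = 0 ↔ M'.det = 0 := by
    rw [← Matrix.exists_mulVec_eq_zero_iff, ← Matrix.exists_mulVec_eq_zero_iff]
    simp only [h]
  rcases z2_cases M.det with h2 | h2 <;> rcases z2_cases M'.det with h3 | h3
  · rw [h2, h3]
  · rw [h1.1 h2] at h3; exact absurd h3 zero_ne_one
  · rw [h1.2 h3] at h2; exact absurd h2 zero_ne_one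
  · rw [h2, h3]

/-- elementary symmetric matrix -/
def EE (a b : N) : Matrix N N (ZMod 2) := Matrix.single a b 1 + Matrix.single b a 1

theorem EE_apply (a b i j : N) : EE a b i j =
    (if a = i ∧ b = j then 1 else 0) + (if b = i ∧ a = j then 1 else 0) := by
  unfold EE
  rw [Matrix.add_apply, Matrix.single_apply, Matrix.single_apply]

theorem EE_mulVec (a b : N) (x : N → ZMod 2) :
    EE a b *ᵥ x = Pi.single a (x b) + Pi.single b (x a) := by
  unfold EE
  rw [Matrix.add_mulVec]
  congr 1 <;>
  · funext i
    simp [Matrix.mulVec, dotProduct, Matrix.single_apply, Pi.single_apply, eq_comm]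
    try (split_ifs <;> simp_all)

theorem EE_symm (a b : N) : (EE a b).IsSymm := by
  unfold EE Matrix.IsSymm
  rw [Matrix.transpose_add, Matrix.transpose_single, Matrix.transpose_single, add_comm]

/-- two by two determinant identity over F2 -/
theorem det_pair (C : Matrix N N (ZMod 2)) (hC : C.IsSymm) {a b : N} (hab : a ≠ b) :
    C.det + (C + EE a b).det = (clr {a, b} C).det := by
  have e1 : C + EE a b = (C.updateRow a (C a + Pi.single b 1)).updateRow b (C b + Pi.single a 1) := by
    ext i j
    rw [Matrix.add_apply, EE_apply]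
    by_cases hb : i = b
    · subst hb
      rw [Matrix.updateRow_self, Pi.add_apply]
      simp [hab, Pi.single_apply, eq_comm]
    · rw [Matrix.updateRow_ne hb]
      by_cases ha : i = a
      · subst ha
        rw [Matrix.updateRow_self, Pi.add_apply]
        simp [hab.symm, Pi.single_apply, eq_comm]
      · rw [Matrix.updateRow_ne ha]
        simp [Ne.symm ha, Ne.symm hb]
  have e2 : (C + EE a b).det = C.det + (C.updateRow a (Pi.single b 1)).det +
      ((C.updateRow b (Pi.single a 1)).det +
        ((C.updateRow b (Pi.single a 1)).updateRow a (Pi.single b 1)).det) := by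
    rw [e1, Matrix.det_updateRow_add]
    have f1 : (C.updateRow a (C a + Pi.single b 1)).updateRow b (C b) =
        C.updateRow a (C a + Pi.single b 1) := by
      conv_lhs => rw [show C b = (C.updateRow a (C a + Pi.single b 1)) b by
        rw [Matrix.updateRow_ne hab.symm]]
      rw [Matrix.updateRow_eq_self]
    have f2 : (C.updateRow a (C a + Pi.single b 1)).updateRow b (Pi.single a 1) =
        (C.updateRow b (Pi.single a 1)).updateRow a (C a + Pi.single b 1) := by
      rw [Matrix.updateRow_comm _ hab]
    rw [f1, f2, Matrix.det_updateRow_add, Matrix.det_updateRow_add, Matrix.updateRow_eq_self]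
    congr 2
    rw [show C a = (C.updateRow b (Pi.single a 1)) a by rw [Matrix.updateRow_ne hab],
      Matrix.updateRow_eq_self]
  have e3 : (C.updateRow a (Pi.single b 1)).det = (C.updateRow b (Pi.single a 1)).det := by
    rw [← Matrix.adjugate_apply, ← Matrix.adjugate_apply]
    have := congrFun (congrFun (Matrix.adjugate_transpose C) a) b
    rw [hC.eq, Matrix.transpose_apply] at this
    exact this
  have e4 : ((C.updateRow b (Pi.single a 1)).updateRow a (Pi.single b 1)).det =
      (clr {a, b} C).det := by
    apply det_eq_of_ker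
    intro x
    rw [clr_mulVec]
    constructor
    · intro h
      have ha := congrFun h a
      have hb := congrFun h b
      rw [Matrix.mulVec, Matrix.updateRow_self, single_one_dotProduct, Pi.zero_apply] at ha
      rw [Matrix.mulVec, Matrix.updateRow_ne hab.symm, Matrix.updateRow_self,
        single_one_dotProduct, Pi.zero_apply] at hb
      refine ⟨?_, ?_⟩
      · intro i hi
        rw [mem_insert, mem_singleton] at hi
        rcases hi with hi | hi <;> subst hi <;> assumption
      · intro i hi
        rw [mem_insert, mem_singleton, not_or] at hi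
        have := congrFun h i
        rw [Matrix.mulVec, Matrix.updateRow_ne hi.1, Matrix.updateRow_ne hi.2] at this
        exact this
    · rintro ⟨h1, h2⟩
      funext i
      by_cases ha : i = a
      · subst ha
        rw [Matrix.mulVec, Matrix.updateRow_self, single_one_dotProduct]
        exact h1 b (by simp)
      · by_cases hb : i = b
        · subst hb
          rw [Matrix.mulVec, Matrix.updateRow_ne ha, Matrix.updateRow_self,
            single_one_dotProduct]
          exact h1 a (by simp)
        · rw [Matrix.mulVec, Matrix.updateRow_ne ha, Matrix.updateRow_ne hb]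
          exact h2 i (by simp [ha, hb])
  rw [e2, e3, e4]
  have h2 : ∀ z : ZMod 2, z + z = 0 := by decide
  linear_combination h2 C.det + h2 (C.updateRow b (Pi.single a 1)).det

theorem clr_symm {W : Finset N} {A : Matrix N N (ZMod 2)} (hA : A.IsSymm) : (clr W A).IsSymm := by
  ext i j
  rw [Matrix.transpose_apply, clr_apply, clr_apply, hA.apply]
  simp only [and_comm, eq_comm]

theorem clr_clr (W V : Finset N) (A : Matrix N N (ZMod 2)) :
    clr V (clr W A) = clr (W ∪ V) A := by
  ext i j
  rw [clr_apply, clr_apply, clr_apply]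
  by_cases h1 : i ∈ W <;> by_cases h2 : j ∈ W <;> by_cases h3 : i ∈ V <;> by_cases h4 : j ∈ V <;>
    simp [h1, h2, h3, h4]

theorem clr_add_EE {W : Finset N} (A : Matrix N N (ZMod 2)) {a b : N} (ha : a ∉ W) (hb : b ∉ W) :
    clr W (A + EE a b) = clr W A + EE a b := by
  ext i j
  rw [Matrix.add_apply, clr_apply, clr_apply, Matrix.add_apply]
  by_cases h : i ∉ W ∧ j ∉ W
  · rw [if_pos h, if_pos h]
  · rw [if_neg h, if_neg h]
    have : EE a b i j = 0 := by
      rw [EE_apply]
      have h1 : ¬ (a = i ∧ b = j) := by
        rintro ⟨e1, e2⟩; subst e1; subst e2; exact h ⟨ha, hb⟩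
      have h2 : ¬ (b = i ∧ a = j) := by
        rintro ⟨e1, e2⟩; subst e1; subst e2; exact h ⟨hb, ha⟩
      rw [if_neg h1, if_neg h2, add_zero]
    rw [this, add_zero]

variable {R : Type} [Fintype R] [DecidableEq R]

/-- the set of indices of the pairs in W -/
def prs (α β : R → N) (W : Finset R) : Finset N := W.image α ∪ W.image β

theorem peel (α β : R → N) (hinj : Function.Injective (Sum.elim α β)) (W : Finset R) :
    ∀ C : Matrix N N (ZMod 2), C.IsSymm →
    ∑ S ∈ W.powerset, (C + ∑ u ∈ S, EE (α u) (β u)).det = (clr (prs α β W) C).det := by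
  induction W using Finset.induction_on with
  | empty =>
    intro C _
    rw [powerset_empty, sum_singleton, sum_empty, add_zero]
    have : clr (prs α β (∅ : Finset R)) C = C := by
      ext i j
      rw [clr_apply]
      simp [prs]
    rw [this]
  | insert u W hu ih =>
    intro C hC
    rw [sum_powerset_insert hu]
    have h1 : ∑ S ∈ W.powerset, (C + ∑ v ∈ insert u S, EE (α v) (β v)).det =
        ∑ S ∈ W.powerset, ((C + EE (α u) (β u)) + ∑ v ∈ S, EE (α v) (β v)).det := by
      refine sum_congr rfl fun S hS => ?_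
      rw [sum_insert fun h => hu (mem_powerset.1 hS h), add_assoc]
    rw [h1, ih C hC, ih _ (hC.add (EE_symm _ _))]
    have hα : α u ∉ prs α β W := by
      unfold prs
      rw [mem_union, mem_image, mem_image]
      rintro (⟨v, hv, e⟩ | ⟨v, hv, e⟩)
      · have := hinj (a₁ := Sum.inl v) (a₂ := Sum.inl u) e
        rw [Sum.inl.injEq] at this
        subst this
        exact hu hv
      · have := hinj (a₁ := Sum.inr v) (a₂ := Sum.inl u) e
        exact absurd this (by simp)
    have hβ : β u ∉ prs α β W := by
      unfold prs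
      rw [mem_union, mem_image, mem_image]
      rintro (⟨v, hv, e⟩ | ⟨v, hv, e⟩)
      · have := hinj (a₁ := Sum.inl v) (a₂ := Sum.inr u) e
        exact absurd this (by simp)
      · have := hinj (a₁ := Sum.inr v) (a₂ := Sum.inr u) e
        rw [Sum.inr.injEq] at this
        subst this
        exact hu hv
    have hne : α u ≠ β u := by
      intro e
      have := hinj (a₁ := Sum.inl u) (a₂ := Sum.inr u) e
      exact absurd this (by simp)
    rw [clr_add_EE _ hα hβ, det_pair _ (clr_symm hC) hne, clr_clr]
    congr 2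
    unfold prs
    ext x
    simp only [mem_union, mem_image, mem_insert, mem_singleton]
    constructor
    · rintro ((⟨v, hv, e⟩ | ⟨v, hv, e⟩) | (e | e))
      · exact Or.inl ⟨v, Or.inr hv, e⟩
      · exact Or.inr ⟨v, Or.inr hv, e⟩
      · exact Or.inl ⟨u, Or.inl rfl, e.symm⟩
      · exact Or.inr ⟨u, Or.inl rfl, e.symm⟩
    · rintro (⟨v, hv | hv, e⟩ | ⟨v, hv | hv, e⟩)
      · subst hv; exact Or.inr (Or.inl e.symm)
      · exact Or.inl (Or.inl ⟨v, hv, e⟩)
      · subst hv; exact Or.inr (Or.inr e.symm)
      · exact Or.inl (Or.inr ⟨v, hv, e⟩)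

/-- parity of the weight -/
theorem wt_parity (A : Matrix N N (ZMod 2)) (S : Finset N) :
    ((wt A (fun i => if i ∈ S then St.Y else St.X) : ℤ) : ZMod 2) = (clr Sᶜ A).det := by
  have hk : ∀ x, x ∈ KK A (fun i => if i ∈ S then St.Y else St.X) ↔ clr Sᶜ A *ᵥ x = 0 := by
    intro x
    rw [mem_KK, clr_mulVec]
    constructor
    · intro h
      refine ⟨fun i hi => ?_, fun i hi => ?_⟩
      · have := h i
        rw [if_neg (mem_compl.1 hi)] at this
        exact this
      · have := h i
        rw [mem_compl, not_not] at hi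
        rw [if_pos hi] at this
        exact this
    · rintro ⟨h1, h2⟩ i
      by_cases hi : i ∈ S
      · rw [if_pos hi]
        exact h2 i (by simpa using hi)
      · rw [if_neg hi]
        exact h1 i (by simpa using hi)
  by_cases hdet : (clr Sᶜ A).det = 0
  · obtain ⟨v, hv, hv2⟩ := Matrix.exists_mulVec_eq_zero_iff.2 hdet
    have hne : Module.finrank (ZMod 2) (KK A (fun i => if i ∈ S then St.Y else St.X)) ≠ 0 := by
      intro h0
      rw [Submodule.finrank_eq_zero] at h0
      have := (hk v).2 hv2
      rw [h0, Submodule.mem_bot] at this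
      exact hv this
    unfold wt
    rw [hdet]
    obtain ⟨k, hk'⟩ := Nat.exists_eq_succ_of_ne_zero hne
    rw [hk', pow_succ]
    push_cast
    have : (2 : ZMod 2) = 0 := by decide
    rw [this]
    ring
  · have h1 : (clr Sᶜ A).det = 1 := (z2_cases _).resolve_left hdet
    have h0 : KK A (fun i => if i ∈ S then St.Y else St.X) = ⊥ := by
      rw [Submodule.eq_bot_iff]
      intro x hx
      by_contra hne
      exact hdet (Matrix.exists_mulVec_eq_zero_iff.1 ⟨x, hne, (hk x).1 hx⟩)
    unfold wt
    rw [h0, finrank_bot, h1]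
    simp


/-- the matrix with modified pair entries -/
def As (A : Matrix N N (ZMod 2)) (α β : R → N) (s : R → ZMod 2) : Matrix N N (ZMod 2) :=
  A + ∑ u, s u • EE (α u) (β u)

theorem As_symm {A : Matrix N N (ZMod 2)} (hA : A.IsSymm) (α β : R → N) (s : R → ZMod 2) :
    (As A α β s).IsSymm := by
  unfold As
  refine hA.add ?_
  unfold Matrix.IsSymm
  rw [Matrix.transpose_sum]
  refine sum_congr rfl fun u _ => ?_
  rw [Matrix.transpose_smul, (EE_symm _ _).eq]

theorem As_ind (A : Matrix N N (ZMod 2)) (α β : R → N) (S : Finset R) :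
    As A α β (fun u => if u ∈ S then 1 else 0) = A + ∑ u ∈ S, EE (α u) (β u) := by
  unfold As
  congr 1
  simp only [ite_smul, one_smul, zero_smul]
  rw [sum_ite_mem, univ_inter]

theorem As_mulVec (A : Matrix N N (ZMod 2)) (α β : R → N) (s : R → ZMod 2) (x : N → ZMod 2) :
    As A α β s *ᵥ x = A *ᵥ x + ∑ u, s u • (Pi.single (α u) (x (β u)) + Pi.single (β u) (x (α u))) := by
  unfold As
  rw [Matrix.add_mulVec, Matrix.sum_mulVec]
  congr 1
  refine sum_congr rfl fun u _ => ?_
  rw [Matrix.smul_mulVec, EE_mulVec]

theorem clr_add_sum {W : Finset N} (A : Matrix N N (ZMod 2)) (α β : R → N)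
    (hα : ∀ u, α u ∉ W) (hβ : ∀ u, β u ∉ W) (S : Finset R) :
    clr W (A + ∑ u ∈ S, EE (α u) (β u)) = clr W A + ∑ u ∈ S, EE (α u) (β u) := by
  induction S using Finset.induction_on with
  | empty => simp
  | insert u S hu ih =>
    rw [sum_insert hu, add_comm (EE (α u) (β u)), ← add_assoc, clr_add_EE _ (hα u) (hβ u), ih,
      add_assoc]

/-- the coefficient of the smallest term is odd -/
theorem odd_coeff (A : Matrix N N (ZMod 2)) (hA : A.IsSymm) (α β : R → N)
    (hinj : Function.Injective (Sum.elim α β)) :
    ((∑ s : R → ZMod 2, sgn s * wt (As A α β s)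
      (fun i => if i ∈ prs α β univ then St.Y else St.X) : ℤ) : ZMod 2) = 1 := by
  push_cast
  have h1 : ∀ s : R → ZMod 2, ((sgn s : ℤ) : ZMod 2) = 1 := by
    intro s
    rcases sgn_sq s with h | h <;> rw [h] <;> decide
  simp only [h1, one_mul, wt_parity]
  have h2 : ∀ F : (R → ZMod 2) → ZMod 2, ∑ t : R → ZMod 2, F t =
      ∑ S : Finset R, F (fun i => if i ∈ S then 1 else 0) := by
    intro F
    symm
    refine Fintype.sum_bijective (fun S : Finset R => fun i => if i ∈ S then (1 : ZMod 2) else 0)
      ⟨?_, ?_⟩ _ _ (fun _ => rfl)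
    · intro S S' h
      ext i
      have := congrFun h i
      by_cases h1 : i ∈ S <;> by_cases h2 : i ∈ S' <;> simp_all
    · intro t
      refine ⟨univ.filter fun i => t i = 1, ?_⟩
      funext i
      rcases z2_cases (t i) with h | h <;> simp [h]
  rw [h2]
  simp only [As_ind]
  have hα : ∀ u, α u ∉ (prs α β univ)ᶜ := by intro u; simp [prs]
  have hβ : ∀ u, β u ∉ (prs α β univ)ᶜ := by intro u; simp [prs]
  simp only [clr_add_sum A α β hα hβ]
  have h3 := peel α β hinj univ (clr (prs α β univ)ᶜ A) (clr_symm hA)
  rw [powerset_univ] at h3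
  rw [h3, clr_clr]
  have : clr ((prs α β univ)ᶜ ∪ prs α β univ) A = 1 := by
    ext i j
    rw [clr_apply, Matrix.one_apply]
    rw [if_neg]
    rintro ⟨h, _⟩
    apply h
    rw [mem_union, mem_compl]
    tauto
  rw [this, Matrix.det_one]

theorem wt_indep (A : Matrix N N (ZMod 2)) (α β : R → N) (S : Finset N) (u : R)
    (h : α u ∉ S ∨ β u ∉ S) (s : R → ZMod 2) :
    wt (As A α β (s + Pi.single u 1)) (fun i => if i ∈ S then St.Y else St.X) =
      wt (As A α β s) (fun i => if i ∈ S then St.Y else St.X) := by
  have e : As A α β (s + Pi.single u 1) = As A α β s + EE (α u) (β u) := by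
    unfold As
    rw [add_assoc]
    congr 1
    simp only [Pi.add_apply, add_smul]
    rw [sum_add_distrib]
    congr 1
    rw [sum_eq_single u]
    · rw [Pi.single_eq_same, one_smul]
    · intro v _ hv
      rw [Pi.single_eq_of_ne hv, zero_smul]
    · simp
  rw [e]
  generalize As A α β s = B
  -- conditions agree for vectors vanishing off S
  have key : ∀ x : N → ZMod 2, (∀ i ∉ S, x i = 0) → ∀ i ∈ S,
      ((B + EE (α u) (β u)) *ᵥ x) i = (B *ᵥ x) i := by
    intro x hx i hi
    rw [Matrix.add_mulVec, EE_mulVec, Pi.add_apply, Pi.add_apply]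
    rcases h with h | h
    · rw [hx _ h, Pi.single_zero, Pi.zero_apply, add_zero, Pi.single_eq_of_ne, add_zero]
      rintro rfl; exact h hi
    · rw [hx _ h, Pi.single_zero, Pi.zero_apply, zero_add, Pi.single_eq_of_ne, add_zero]
      rintro rfl; exact h hi
  have hK : ∀ C : Matrix N N (ZMod 2), ∀ x, x ∈ KK C (fun i => if i ∈ S then St.Y else St.X) ↔
      (∀ i ∉ S, x i = 0) ∧ ∀ i ∈ S, (C *ᵥ x) i = 0 := by
    intro C x
    rw [mem_KK]
    constructor
    · intro h
      refine ⟨fun i hi => ?_, fun i hi => ?_⟩
      · have := h i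
        rw [if_neg hi] at this
        exact this
      · have := h i
        rw [if_pos hi] at this
        exact this
    · rintro ⟨h1, h2⟩ i
      by_cases hi : i ∈ S
      · rw [if_pos hi]
        exact h2 i hi
      · rw [if_neg hi]
        exact h1 i hi
  have : KK (B + EE (α u) (β u)) (fun i => if i ∈ S then St.Y else St.X) =
      KK B (fun i => if i ∈ S then St.Y else St.X) := by
    ext x
    rw [hK, hK]
    constructor
    · rintro ⟨h1, h2⟩
      exact ⟨h1, fun i hi => by rw [← key x h1 i hi]; exact h2 i hi⟩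
    · rintro ⟨h1, h2⟩
      exact ⟨h1, fun i hi => by rw [key x h1 i hi]; exact h2 i hi⟩
  unfold wt
  rw [this]

/-- the value at -2 is nonzero -/
theorem value_ne_zero (A : Matrix N N (ZMod 2)) (hA : A.IsSymm) (α β : R → N)
    (hinj : Function.Injective (Sum.elim α β)) :
    ∑ s : R → ZMod 2, sgn s * ∑ t : N → ZMod 2, sgn t * wt (As A α β s) (full t) ≠ 0 := by
  intro hzero
  have h1 : ∀ s : R → ZMod 2, ∑ t : N → ZMod 2, sgn t * wt (As A α β s) (full t) =
      ∑ S : Finset N, 2 ^ S.card * wt (As A α β s) (fun i => if i ∈ S then St.Y else St.X) :=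
    fun s => expansion_full _ fun τ i => binor _ (As_symm hA α β s) τ i
  simp only [h1, mul_sum] at hzero
  rw [sum_comm] at hzero
  have h2 : ∀ S : Finset N, ∑ s : R → ZMod 2, sgn s * (2 ^ S.card *
      wt (As A α β s) (fun i => if i ∈ S then St.Y else St.X)) =
      2 ^ S.card * ∑ s : R → ZMod 2, sgn s *
        wt (As A α β s) (fun i => if i ∈ S then St.Y else St.X) := by
    intro S
    rw [mul_sum]
    refine sum_congr rfl fun s _ => ?_
    ring
  simp only [h2] at hzero
  obtain ⟨U, hU⟩ : ∃ U, U = prs α β univ := ⟨_, rfl⟩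
  rw [← Finset.add_sum_erase _ _ (mem_univ U)] at hzero
  have h3 : ∀ S ∈ (univ : Finset (Finset N)).erase U, (2:ℤ) ^ (U.card + 1) ∣ 2 ^ S.card *
      ∑ s : R → ZMod 2, sgn s * wt (As A α β s) (fun i => if i ∈ S then St.Y else St.X) := by
    intro S hS
    by_cases hsub : U ⊆ S
    · have hlt : U.card < S.card := card_lt_card
        (lt_of_le_of_ne hsub fun e => (ne_of_mem_erase hS) e.symm)
      exact Dvd.dvd.mul_right (pow_dvd_pow 2 hlt) _
    · have : ∃ u, α u ∉ S ∨ β u ∉ S := by
        by_contra hcon
        push Not at hcon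
        apply hsub
        rw [hU]
        intro x hx
        unfold prs at hx
        rw [mem_union, mem_image, mem_image] at hx
        rcases hx with ⟨u, _, e⟩ | ⟨u, _, e⟩
        · rw [← e]; exact (hcon u).1
        · rw [← e]; exact (hcon u).2
      obtain ⟨u, hu⟩ := this
      have hz : ∑ s : R → ZMod 2, sgn s *
          wt (As A α β s) (fun i => if i ∈ S then St.Y else St.X) = 0 := by
        have e := Equiv.sum_comp (Equiv.addRight (Pi.single u (1 : ZMod 2) : R → ZMod 2))
          (fun s => sgn s * wt (As A α β s) (fun i => if i ∈ S then St.Y else St.X))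
        simp only [Equiv.coe_addRight, sgn_add_single, wt_indep A α β S u hu, neg_mul,
          sum_neg_distrib] at e
        linarith
      rw [hz, mul_zero]
      exact dvd_zero _
  obtain ⟨m, hm⟩ := Finset.dvd_sum h3
  rw [hm] at hzero
  have hodd := odd_coeff A hA α β hinj
  rw [← hU] at hodd
  generalize (∑ s : R → ZMod 2, sgn s * wt (As A α β s)
    (fun i => if i ∈ U then St.Y else St.X)) = q at hzero hodd
  have h4 : (2:ℤ) ^ U.card * (q + 2 * m) = 0 := by
    rw [← hzero, pow_succ]; ring
  have h5 : q + 2 * m = 0 := by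
    rcases mul_eq_zero.1 h4 with h | h
    · exact absurd h (by positivity)
    · exact h
  have h6 : q = -(2 * m) := by linarith
  rw [h6] at hodd
  push_cast at hodd
  have : (2 : ZMod 2) = 0 := by decide
  rw [this] at hodd
  simp at hodd

/-- if there is no good state then all power sums vanish -/
theorem power_sums (A : Matrix N N (ZMod 2)) (α β : R → N)
    (hinj : Function.Injective (Sum.elim α β))
    (hno : ∀ (s : R → ZMod 2) (t : N → ZMod 2),
      (∃ i, ∀ x ∈ KK (As A α β s) (full t), x i = 0) ∨
      (∃ u, ∀ x ∈ KK (As A α β s) (full t), x (α u) + x (β u) = 0)) (d : ℕ) :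
    ∑ p : (R → ZMod 2) × (N → ZMod 2), sgn p.1 * sgn p.2 *
      ((2:ℤ) ^ d) ^ Module.finrank (ZMod 2) (KK (As A α β p.1) (full p.2)) = 0 := by
  classical
  have hcard : ∀ K : Submodule (ZMod 2) (N → ZMod 2),
      ((2:ℤ) ^ d) ^ Module.finrank (ZMod 2) K =
      ∑ l : Fin d → N → ZMod 2, if ∀ j, l j ∈ K then (1:ℤ) else 0 := by
    intro K
    have h1 : Fintype.card K = 2 ^ Module.finrank (ZMod 2) K := by
      have := Module.card_eq_pow_finrank (K := ZMod 2) (V := K)
      rw [ZMod.card] at this
      rw [← this]
    have h2 : Fintype.card (Fin d → K) =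
        (univ.filter fun l : Fin d → N → ZMod 2 => ∀ j, l j ∈ K).card := by
      rw [← Fintype.card_subtype]
      refine Fintype.card_congr ⟨fun f => ⟨fun j => (f j : N → ZMod 2), fun j => (f j).2⟩,
        fun f j => ⟨f.1 j, f.2 j⟩, fun f => rfl, fun f => rfl⟩
    rw [Fintype.card_fun, Fintype.card_fin, h1] at h2
    rw [sum_boole, ← h2]
    push_cast
    rw [← pow_mul, ← pow_mul, mul_comm]
  simp only [hcard, mul_sum]
  rw [sum_comm]
  refine sum_eq_zero fun l _ => ?_
  by_cases hex : ∃ p : (R → ZMod 2) × (N → ZMod 2), ∀ j, l j ∈ KK (As A α β p.1) (full p.2)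
  · obtain ⟨⟨s0, t0⟩, h0⟩ := hex
    have hmem : ∀ (s : R → ZMod 2) (t : N → ZMod 2) (x : N → ZMod 2),
        x ∈ KK (As A α β s) (full t) ↔ ∀ i, (As A α β s *ᵥ x) i = t i * x i := by
      intro s t x
      rw [mem_KK]
      refine forall_congr' fun i => ?_
      unfold full
      rcases z2_cases (t i) with h | h
      · rw [if_pos h, h, zero_mul]; rfl
      · rw [if_neg (by rw [h]; exact one_ne_zero), h, one_mul]
        show x i + (As A α β s *ᵥ x) i = 0 ↔ _
        generalize x i = a
        generalize (As A α β s *ᵥ x) i = b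
        revert a b; decide
    rcases hno s0 t0 with ⟨i, hi⟩ | ⟨u, hu⟩
    · have hl : ∀ j, l j i = 0 := fun j => hi _ (h0 j)
      have hinv : ∀ (s : R → ZMod 2) (t : N → ZMod 2),
          (∀ j, l j ∈ KK (As A α β s) (full (t + Pi.single i 1))) ↔
          (∀ j, l j ∈ KK (As A α β s) (full t)) := by
        intro s t
        refine forall_congr' fun j => ?_
        rw [hmem, hmem]
        refine forall_congr' fun k => ?_
        by_cases hk : k = i
        · subst hk
          rw [hl j, mul_zero, mul_zero]
        · rw [Pi.add_apply, Pi.single_eq_of_ne hk, add_zero]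
      have e := Equiv.sum_comp (Equiv.addRight
        ((0, Pi.single i (1 : ZMod 2)) : (R → ZMod 2) × (N → ZMod 2)))
        (fun p : (R → ZMod 2) × (N → ZMod 2) => sgn p.1 * sgn p.2 *
          if ∀ j, l j ∈ KK (As A α β p.1) (full p.2) then (1:ℤ) else 0)
      simp only [Equiv.coe_addRight, Prod.fst_add, Prod.snd_add, add_zero, sgn_add_single,
        hinv, mul_neg, neg_mul, sum_neg_distrib] at e
      linarith
    · have hl : ∀ j, l j (α u) = l j (β u) := fun j => by
        have := hu _ (h0 j)
        revert this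
        generalize l j (α u) = a
        generalize l j (β u) = b
        revert a b; decide
      have hne : α u ≠ β u := by
        intro e
        have := hinj (a₁ := Sum.inl u) (a₂ := Sum.inr u) e
        exact absurd this (by simp)
      have hinv : ∀ (s : R → ZMod 2) (t : N → ZMod 2),
          (∀ j, l j ∈ KK (As A α β (s + Pi.single u 1))
            (full (t + Pi.single (α u) 1 + Pi.single (β u) 1))) ↔
          (∀ j, l j ∈ KK (As A α β s) (full t)) := by
        intro s t
        refine forall_congr' fun j => ?_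
        rw [hmem, hmem]
        refine forall_congr' fun k => ?_
        have h5 : (As A α β (s + Pi.single u 1) *ᵥ l j) k = (As A α β s *ᵥ l j) k +
            ((Pi.single (α u) (l j (β u)) : N → ZMod 2) k +
              (Pi.single (β u) (l j (α u)) : N → ZMod 2) k) := by
          rw [As_mulVec, As_mulVec, Pi.add_apply, Pi.add_apply, add_assoc]
          congr 1
          have h6 : ∀ v : R, (s + (Pi.single u 1 : R → ZMod 2)) v = s v +
              (Pi.single u 1 : R → ZMod 2) v := fun v => rfl
          simp only [h6, add_smul, sum_add_distrib]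
          rw [Pi.add_apply]
          congr 1
          rw [sum_eq_single u]
          · rw [Pi.single_eq_same, one_smul]; rfl
          · intro v _ hv
            rw [Pi.single_eq_of_ne hv, zero_smul]
          · simp
        rw [h5, Pi.add_apply, Pi.add_apply]
        by_cases ha : k = α u
        · rw [ha, Pi.single_eq_same, Pi.single_eq_same, Pi.single_eq_of_ne hne,
            Pi.single_eq_of_ne hne, hl j]
          generalize (As A α β s *ᵥ l j) (α u) = b
          generalize l j (β u) = a
          generalize t (α u) = c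
          revert a b c; decide
        · by_cases hb : k = β u
          · rw [hb, Pi.single_eq_same, Pi.single_eq_same, Pi.single_eq_of_ne hne.symm,
              Pi.single_eq_of_ne hne.symm, hl j]
            generalize (As A α β s *ᵥ l j) (β u) = b
            generalize l j (β u) = a
            generalize t (β u) = c
            revert a b c; decide
          · rw [Pi.single_eq_of_ne ha, Pi.single_eq_of_ne hb, Pi.single_eq_of_ne ha,
              Pi.single_eq_of_ne hb]
            simp
      have e := Equiv.sum_comp (Equiv.addRight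
        ((Pi.single u (1 : ZMod 2), Pi.single (α u) (1 : ZMod 2) + Pi.single (β u) (1 : ZMod 2)) :
          (R → ZMod 2) × (N → ZMod 2)))
        (fun p : (R → ZMod 2) × (N → ZMod 2) => sgn p.1 * sgn p.2 *
          if ∀ j, l j ∈ KK (As A α β p.1) (full p.2) then (1:ℤ) else 0)
      simp only [Equiv.coe_addRight, Prod.fst_add, Prod.snd_add, ← add_assoc, sgn_add_single,
        hinv, neg_mul, neg_neg, sum_neg_distrib] at e
      linarith
  · push Not at hex
    refine sum_eq_zero fun p _ => ?_
    obtain ⟨j, hj⟩ := hex p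
    rw [if_neg fun h => hj (h j), mul_zero]

/-- MAIN ALGEBRAIC THEOREM -/
theorem algebra (A : Matrix N N (ZMod 2)) (hA : A.IsSymm) (α β : R → N)
    (hinj : Function.Injective (Sum.elim α β)) :
    ∃ (s : R → ZMod 2) (t : N → ZMod 2),
      (∀ i, ∃ x ∈ KK (As A α β s) (full t), x i ≠ 0) ∧
      (∀ u, ∃ x ∈ KK (As A α β s) (full t), x (α u) + x (β u) ≠ 0) := by
  by_contra hcon
  push Not at hcon
  have hno : ∀ (s : R → ZMod 2) (t : N → ZMod 2),
      (∃ i, ∀ x ∈ KK (As A α β s) (full t), x i = 0) ∨
      (∃ u, ∀ x ∈ KK (As A α β s) (full t), x (α u) + x (β u) = 0) := by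
    intro s t
    by_cases h : ∀ i, ∃ x ∈ KK (As A α β s) (full t), x i ≠ 0
    · exact Or.inr (hcon s t h)
    · push Not at h
      exact Or.inl h
  have hps := power_sums A α β hinj hno
  let P : Polynomial ℤ := ∑ p : (R → ZMod 2) × (N → ZMod 2),
    Polynomial.C (sgn p.1 * sgn p.2) *
      Polynomial.X ^ Module.finrank (ZMod 2) (KK (As A α β p.1) (full p.2))
  have hP : P = 0 := by
    apply Polynomial.eq_zero_of_infinite_isRoot
    have hinj2 : Function.Injective (fun d : ℕ => (2:ℤ) ^ d) := by
      intro a b h
      have h' : (2:ℤ) ^ a = 2 ^ b := h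
      have h'' : (2:ℕ) ^ a = 2 ^ b := by exact_mod_cast h'
      exact Nat.pow_right_injective le_rfl h''
    refine Set.infinite_of_injective_forall_mem (f := fun d : ℕ => (2:ℤ) ^ d) hinj2 ?_
    intro d
    show Polynomial.eval _ P = 0
    rw [Polynomial.eval_finsetSum]
    simp only [Polynomial.eval_mul, Polynomial.eval_C, Polynomial.eval_pow, Polynomial.eval_X]
    exact hps d
  have h2 : Polynomial.eval (-2) P = 0 := by rw [hP]; simp
  rw [Polynomial.eval_finsetSum] at h2
  simp only [Polynomial.eval_mul, Polynomial.eval_C, Polynomial.eval_pow, Polynomial.eval_X] at h2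
  apply value_ne_zero A hA α β hinj
  rw [Fintype.sum_prod_type] at h2
  rw [← h2]
  refine sum_congr rfl fun s _ => ?_
  rw [mul_sum]
  refine sum_congr rfl fun t _ => ?_
  unfold wt
  ring


end algebra
section core

variable {Pos Edg I R : Type} [Fintype Pos] [DecidableEq Pos]
  [Fintype I] [DecidableEq I] [Fintype R] [DecidableEq R]

/-- index of positions in blocks -/
abbrev Qx (I R : Type) : Type := (I × Fin 2) ⊕ (R × Fin 3)

/-- index of variables -/
abbrev Nx (I R : Type) : Type := I ⊕ (R ⊕ R)

/-- first end -/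
def fi : Nx I R → Qx I R
  | Sum.inl i => Sum.inl (i, 0)
  | Sum.inr (Sum.inl u) => Sum.inr (u, 0)
  | Sum.inr (Sum.inr u) => Sum.inr (u, 1)

/-- second end -/
def si : Nx I R → Qx I R
  | Sum.inl i => Sum.inl (i, 1)
  | Sum.inr (Sum.inl u) => Sum.inr (u, 2)
  | Sum.inr (Sum.inr u) => Sum.inr (u, 2)

/-- correction -/
def cor : Nx I R → Nx I R → ZMod 2
  | Sum.inr (Sum.inl u), Sum.inr (Sum.inr v) => if u = v then 1 else 0
  | _, _ => 0

theorem ends_formula (j k : Nx I R) (hjk : j ≠ k) :
    ((if fi j = fi k then 1 else 0) + (if fi j = si k then 1 else 0) +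
      ((if si j = fi k then 1 else 0) + (if si j = si k then 1 else 0)) : ZMod 2) =
      cor j k + cor k j := by
  rcases j with i | u | u <;> rcases k with i' | v | v
  · have : i ≠ i' := fun h => hjk (by rw [h])
    simp [fi, si, cor, this]
  · simp [fi, si, cor]
  · simp [fi, si, cor]
  · simp [fi, si, cor]
  · have : u ≠ v := fun h => hjk (by rw [h])
    simp [fi, si, cor, this]
  · by_cases h : u = v
    · subst h; simp [fi, si, cor]
    · simp [fi, si, cor, h]
  · simp [fi, si, cor]
  · by_cases h : u = v
    · subst h; simp [fi, si, cor]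
    · simp [fi, si, cor, h, Ne.symm h]
  · have : u ≠ v := fun h => hjk (by rw [h])
    simp [fi, si, cor, this]

theorem sum_pick (F : Pos → ZMod 2) (a b : Pos) :
    ∑ p, F p * ((if p = a then 1 else 0) + (if p = b then 1 else 0)) = F a + F b := by
  simp [mul_add, sum_add_distrib]

theorem tri_even {K : Type} [DecidableEq (K → ZMod 2)] (c0 c0' c1 c1' c2 c2' xa xb : K → ZMod 2)
    (S ta tb : ZMod 2)
    (w : ∀ x, c0 x + c0' x = xa x ∧ c1 x + c1' x = xb x ∧ c2 x + c2' x = xa x + xb x ∧
      c0 x + c2 x + xb x + S * xb x = ta * xa x ∧ c1 x + c2 x + S * xa x = tb * xb x)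
    (c : K → ZMod 2) :
    Even (((if c0 = c then 1 else 0) + (if c0' = c then 1 else 0)) +
      ((if c1 = c then 1 else 0) + (if c1' = c then 1 else 0)) +
      ((if c2 = c then 1 else 0) + (if c2' = c then 1 else 0))) := by
  rcases z2_cases S with hS | hS <;> rcases z2_cases ta with ha | ha <;>
    rcases z2_cases tb with hb | hb <;> subst hS <;> subst ha <;> subst hb
  · have e1 : c0' = c2' := by
      funext x; have := w x; revert this
      generalize c0 x = a0; generalize c0' x = a1; generalize c1 x = a2; generalize c1' x = a3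
      generalize c2 x = a4; generalize c2' x = a5; generalize xa x = a6; generalize xb x = a7
      revert a0 a1 a2 a3 a4 a5 a6 a7; decide
    have e2 : c1 = c2 := by
      funext x; have := w x; revert this
      generalize c0 x = a0; generalize c0' x = a1; generalize c1 x = a2; generalize c1' x = a3
      generalize c2 x = a4; generalize c2' x = a5; generalize xa x = a6; generalize xb x = a7
      revert a0 a1 a2 a3 a4 a5 a6 a7; decide
    have e3 : c1' = c0 := by
      funext x; have := w x; revert this
      generalize c0 x = a0; generalize c0' x = a1; generalize c1 x = a2; generalize c1' x = a3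
      generalize c2 x = a4; generalize c2' x = a5; generalize xa x = a6; generalize xb x = a7
      revert a0 a1 a2 a3 a4 a5 a6 a7; decide
    rw [e1, e2, e3]; split_ifs <;> decide
  · have e1 : c0' = c2' := by
      funext x; have := w x; revert this
      generalize c0 x = a0; generalize c0' x = a1; generalize c1 x = a2; generalize c1' x = a3
      generalize c2 x = a4; generalize c2' x = a5; generalize xa x = a6; generalize xb x = a7
      revert a0 a1 a2 a3 a4 a5 a6 a7; decide
    have e2 : c1' = c2 := by
      funext x; have := w x; revert this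
      generalize c0 x = a0; generalize c0' x = a1; generalize c1 x = a2; generalize c1' x = a3
      generalize c2 x = a4; generalize c2' x = a5; generalize xa x = a6; generalize xb x = a7
      revert a0 a1 a2 a3 a4 a5 a6 a7; decide
    have e3 : c1 = c0 := by
      funext x; have := w x; revert this
      generalize c0 x = a0; generalize c0' x = a1; generalize c1 x = a2; generalize c1' x = a3
      generalize c2 x = a4; generalize c2' x = a5; generalize xa x = a6; generalize xb x = a7
      revert a0 a1 a2 a3 a4 a5 a6 a7; decide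
    rw [e1, e2, e3]; split_ifs <;> decide
  · have e1 : c0 = c2' := by
      funext x; have := w x; revert this
      generalize c0 x = a0; generalize c0' x = a1; generalize c1 x = a2; generalize c1' x = a3
      generalize c2 x = a4; generalize c2' x = a5; generalize xa x = a6; generalize xb x = a7
      revert a0 a1 a2 a3 a4 a5 a6 a7; decide
    have e2 : c1 = c2 := by
      funext x; have := w x; revert this
      generalize c0 x = a0; generalize c0' x = a1; generalize c1 x = a2; generalize c1' x = a3
      generalize c2 x = a4; generalize c2' x = a5; generalize xa x = a6; generalize xb x = a7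
      revert a0 a1 a2 a3 a4 a5 a6 a7; decide
    have e3 : c1' = c0' := by
      funext x; have := w x; revert this
      generalize c0 x = a0; generalize c0' x = a1; generalize c1 x = a2; generalize c1' x = a3
      generalize c2 x = a4; generalize c2' x = a5; generalize xa x = a6; generalize xb x = a7
      revert a0 a1 a2 a3 a4 a5 a6 a7; decide
    rw [e1, e2, e3]; split_ifs <;> decide
  · have e1 : c0 = c2' := by
      funext x; have := w x; revert this
      generalize c0 x = a0; generalize c0' x = a1; generalize c1 x = a2; generalize c1' x = a3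
      generalize c2 x = a4; generalize c2' x = a5; generalize xa x = a6; generalize xb x = a7
      revert a0 a1 a2 a3 a4 a5 a6 a7; decide
    have e2 : c1' = c2 := by
      funext x; have := w x; revert this
      generalize c0 x = a0; generalize c0' x = a1; generalize c1 x = a2; generalize c1' x = a3
      generalize c2 x = a4; generalize c2' x = a5; generalize xa x = a6; generalize xb x = a7
      revert a0 a1 a2 a3 a4 a5 a6 a7; decide
    have e3 : c1 = c0' := by
      funext x; have := w x; revert this
      generalize c0 x = a0; generalize c0' x = a1; generalize c1 x = a2; generalize c1' x = a3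
      generalize c2 x = a4; generalize c2' x = a5; generalize xa x = a6; generalize xb x = a7
      revert a0 a1 a2 a3 a4 a5 a6 a7; decide
    rw [e1, e2, e3]; split_ifs <;> decide
  · have e1 : c0 = c2 := by
      funext x; have := w x; revert this
      generalize c0 x = a0; generalize c0' x = a1; generalize c1 x = a2; generalize c1' x = a3
      generalize c2 x = a4; generalize c2' x = a5; generalize xa x = a6; generalize xb x = a7
      revert a0 a1 a2 a3 a4 a5 a6 a7; decide
    have e2 : c1' = c2' := by
      funext x; have := w x; revert this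
      generalize c0 x = a0; generalize c0' x = a1; generalize c1 x = a2; generalize c1' x = a3
      generalize c2 x = a4; generalize c2' x = a5; generalize xa x = a6; generalize xb x = a7
      revert a0 a1 a2 a3 a4 a5 a6 a7; decide
    have e3 : c1 = c0' := by
      funext x; have := w x; revert this
      generalize c0 x = a0; generalize c0' x = a1; generalize c1 x = a2; generalize c1' x = a3
      generalize c2 x = a4; generalize c2' x = a5; generalize xa x = a6; generalize xb x = a7
      revert a0 a1 a2 a3 a4 a5 a6 a7; decide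
    rw [e1, e2, e3]; split_ifs <;> decide
  · have e1 : c0 = c2 := by
      funext x; have := w x; revert this
      generalize c0 x = a0; generalize c0' x = a1; generalize c1 x = a2; generalize c1' x = a3
      generalize c2 x = a4; generalize c2' x = a5; generalize xa x = a6; generalize xb x = a7
      revert a0 a1 a2 a3 a4 a5 a6 a7; decide
    have e2 : c1 = c2' := by
      funext x; have := w x; revert this
      generalize c0 x = a0; generalize c0' x = a1; generalize c1 x = a2; generalize c1' x = a3
      generalize c2 x = a4; generalize c2' x = a5; generalize xa x = a6; generalize xb x = a7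
      revert a0 a1 a2 a3 a4 a5 a6 a7; decide
    have e3 : c1' = c0' := by
      funext x; have := w x; revert this
      generalize c0 x = a0; generalize c0' x = a1; generalize c1 x = a2; generalize c1' x = a3
      generalize c2 x = a4; generalize c2' x = a5; generalize xa x = a6; generalize xb x = a7
      revert a0 a1 a2 a3 a4 a5 a6 a7; decide
    rw [e1, e2, e3]; split_ifs <;> decide
  · have e1 : c0' = c2 := by
      funext x; have := w x; revert this
      generalize c0 x = a0; generalize c0' x = a1; generalize c1 x = a2; generalize c1' x = a3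
      generalize c2 x = a4; generalize c2' x = a5; generalize xa x = a6; generalize xb x = a7
      revert a0 a1 a2 a3 a4 a5 a6 a7; decide
    have e2 : c1' = c2' := by
      funext x; have := w x; revert this
      generalize c0 x = a0; generalize c0' x = a1; generalize c1 x = a2; generalize c1' x = a3
      generalize c2 x = a4; generalize c2' x = a5; generalize xa x = a6; generalize xb x = a7
      revert a0 a1 a2 a3 a4 a5 a6 a7; decide
    have e3 : c1 = c0 := by
      funext x; have := w x; revert this
      generalize c0 x = a0; generalize c0' x = a1; generalize c1 x = a2; generalize c1' x = a3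
      generalize c2 x = a4; generalize c2' x = a5; generalize xa x = a6; generalize xb x = a7
      revert a0 a1 a2 a3 a4 a5 a6 a7; decide
    rw [e1, e2, e3]; split_ifs <;> decide
  · have e1 : c0' = c2 := by
      funext x; have := w x; revert this
      generalize c0 x = a0; generalize c0' x = a1; generalize c1 x = a2; generalize c1' x = a3
      generalize c2 x = a4; generalize c2' x = a5; generalize xa x = a6; generalize xb x = a7
      revert a0 a1 a2 a3 a4 a5 a6 a7; decide
    have e2 : c1 = c2' := by
      funext x; have := w x; revert this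
      generalize c0 x = a0; generalize c0' x = a1; generalize c1 x = a2; generalize c1' x = a3
      generalize c2 x = a4; generalize c2' x = a5; generalize xa x = a6; generalize xb x = a7
      revert a0 a1 a2 a3 a4 a5 a6 a7; decide
    have e3 : c1' = c0 := by
      funext x; have := w x; revert this
      generalize c0 x = a0; generalize c0' x = a1; generalize c1 x = a2; generalize c1' x = a3
      generalize c2 x = a4; generalize c2' x = a5; generalize xa x = a6; generalize xb x = a7
      revert a0 a1 a2 a3 a4 a5 a6 a7; decide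
    rw [e1, e2, e3]; split_ifs <;> decide

theorem core (l r : Pos → Edg)
    (H1 : ∀ h : Edg → ZMod 2, ∑ p, (h (l p) + h (r p)) = 0)
    (H2 : ∀ p q : Pos, ∃ b : Edg → ZMod 2, ∀ x,
      b (l x) + b (r x) = (if x = p then 1 else 0) + (if x = q then 1 else 0))
    (pos : Qx I R → Pos) (hpos : Function.Injective pos) :
    ∃ (F : Type) (_ : Fintype F) (_ : DecidableEq F) (col : Edg → F),
      (∀ q, col (l (pos q)) ≠ col (r (pos q))) ∧
      (∀ p, p ∉ Set.range pos → col (l p) = col (r p)) ∧
      (∀ (i : I) (c : F), Even (∑ k : Fin 2, ((if col (l (pos (Sum.inl (i, k)))) = c then 1 else 0) +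
        (if col (r (pos (Sum.inl (i, k)))) = c then 1 else 0)))) ∧
      (∀ (u : R) (c : F), Even (∑ k : Fin 3, ((if col (l (pos (Sum.inr (u, k)))) = c then 1 else 0) +
        (if col (r (pos (Sum.inr (u, k)))) = c then 1 else 0)))) := by
  classical
  -- potentials
  have hb : ∀ j : Nx I R, ∃ b : Edg → ZMod 2, ∀ x,
      b (l x) + b (r x) = (if x = pos (fi j) then 1 else 0) + (if x = pos (si j) then 1 else 0) :=
    fun j => H2 _ _
  choose b hb using hb
  have h2 : ∀ z : ZMod 2, z + z = 0 := by decide
  have hbr : ∀ j x, b j (r x) = b j (l x) +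
      ((if x = pos (fi j) then 1 else 0) + (if x = pos (si j) then 1 else 0)) := by
    intro j x
    rw [← hb j x]
    linear_combination (-1 : ZMod 2) * h2 (b j (l x))
  obtain ⟨A, hAdef⟩ : ∃ A : Matrix (Nx I R) (Nx I R) (ZMod 2),
      ∀ j k, A j k = b k (l (pos (fi j))) + b k (l (pos (si j))) + cor j k := ⟨Matrix.of _, fun _ _ => rfl⟩
  have hfs : ∀ j : Nx I R, fi j ≠ si j := by
    intro j
    rcases j with i | u | u <;> simp [fi, si]
  have hA : A.IsSymm := by
    ext j k
    rw [Matrix.transpose_apply, hAdef, hAdef]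
    by_cases hjk : j = k
    · rw [hjk]
    · have e1 := H1 (fun e => b j e * b k e)
      have e2 : ∀ p, b j (l p) * b k (l p) + b j (r p) * b k (r p) =
          b j (l p) * ((if p = pos (fi k) then 1 else 0) + (if p = pos (si k) then 1 else 0)) +
          b k (l p) * ((if p = pos (fi j) then 1 else 0) + (if p = pos (si j) then 1 else 0)) +
          ((if p = pos (fi j) then 1 else 0) + (if p = pos (si j) then 1 else 0)) *
          ((if p = pos (fi k) then 1 else 0) + (if p = pos (si k) then 1 else 0)) := by
        intro p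
        rw [hbr j p, hbr k p]
        linear_combination h2 (b j (l p) * b k (l p))
      simp only [e2, sum_add_distrib] at e1
      rw [sum_pick (fun p => b j (l p)), sum_pick (fun p => b k (l p)),
        sum_pick (fun p => (if p = pos (fi j) then 1 else 0) + (if p = pos (si j) then 1 else 0))]
        at e1
      have e3 := ends_formula j k hjk
      simp only [hpos.eq_iff] at e1
      have e4 : ∀ x y : Qx I R, (if x = y then (1 : ZMod 2) else 0) = if y = x then 1 else 0 := by
        intro x y; simp only [eq_comm]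
      rw [e4 (fi k) (fi j), e4 (fi k) (si j), e4 (si k) (fi j), e4 (si k) (si j)] at e1
      linear_combination e1 - e3 - h2 (b k (l (pos (fi j)))) - h2 (b k (l (pos (si j)))) -
        h2 (cor j k)
  obtain ⟨s, t, hg1, hg2⟩ := algebra A hA (fun u : R => (Sum.inr (Sum.inl u) : Nx I R))
    (fun u : R => Sum.inr (Sum.inr u)) (by
      rintro (u | u) (v | v) h
      · simp only [Sum.elim_inl, Sum.inr.injEq, Sum.inl.injEq] at h; rw [h]
      · simp at h
      · simp at h
      · simp only [Sum.elim_inr, Sum.inr.injEq] at h; rw [h])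
  obtain ⟨K, hK⟩ : ∃ K, K = KK (As A (fun u : R => (Sum.inr (Sum.inl u) : Nx I R))
    (fun u : R => Sum.inr (Sum.inr u)) s) (full t) := ⟨_, rfl⟩
  rw [← hK] at hg1 hg2
  have hmem : ∀ x : Nx I R → ZMod 2, x ∈ K → ∀ i, (As A (fun u : R => (Sum.inr (Sum.inl u) : Nx I R))
      (fun u : R => Sum.inr (Sum.inr u)) s *ᵥ x) i = t i * x i := by
    intro x hx i
    rw [hK, mem_KK] at hx
    have := hx i
    unfold full at this
    rcases z2_cases (t i) with h | h
    · rw [if_pos h] at this
      rw [h, zero_mul]; exact this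
    · rw [if_neg (by rw [h]; exact one_ne_zero)] at this
      rw [h, one_mul]
      revert this
      show x i + _ = 0 → _
      generalize x i = a
      generalize (As A _ _ s *ᵥ x) i = b
      revert a b; decide
  -- the potential of a vector
  obtain ⟨a, ha⟩ : ∃ a : (Nx I R → ZMod 2) → Edg → ZMod 2, ∀ x e, a x e = ∑ j, x j * b j e :=
    ⟨_, fun _ _ => rfl⟩
  have had : ∀ x p, a x (l p) + a x (r p) =
      ∑ j, x j * ((if p = pos (fi j) then 1 else 0) + (if p = pos (si j) then 1 else 0)) := by
    intro x p
    rw [ha, ha, ← sum_add_distrib]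
    refine sum_congr rfl fun j _ => ?_
    rw [← hb j p]; ring
  have hAx : ∀ x j, (A *ᵥ x) j = a x (l (pos (fi j))) + a x (l (pos (si j))) +
      ∑ k, cor j k * x k := by
    intro x j
    rw [ha, ha, Matrix.mulVec, dotProduct, ← sum_add_distrib, ← sum_add_distrib]
    refine sum_congr rfl fun k _ => ?_
    rw [hAdef]; ring
  have hI : ∀ x ∈ K, ∀ i : I, a x (l (pos (Sum.inl (i, 0)))) + a x (l (pos (Sum.inl (i, 1)))) =
      t (Sum.inl i) * x (Sum.inl i) := by
    intro x hx i
    have h1 := hmem x hx (Sum.inl i)
    rw [As_mulVec, Pi.add_apply, hAx] at h1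
    have e1 : ∑ k, cor (Sum.inl i : Nx I R) k * x k = 0 := by
      refine sum_eq_zero fun k _ => ?_
      rcases k with k | k | k <;> simp [cor]
    have e2 : (∑ u, s u • ((Pi.single (Sum.inr (Sum.inl u)) (x (Sum.inr (Sum.inr u))) :
        Nx I R → ZMod 2) + (Pi.single (Sum.inr (Sum.inr u)) (x (Sum.inr (Sum.inl u))) :
        Nx I R → ZMod 2)) : Nx I R → ZMod 2) (Sum.inl i) = 0 := by
      rw [Finset.sum_apply]
      refine sum_eq_zero fun u _ => ?_
      simp
    rw [e1, e2, add_zero, add_zero] at h1
    exact h1
  have hα : ∀ x ∈ K, ∀ u : R, a x (l (pos (Sum.inr (u, 0)))) + a x (l (pos (Sum.inr (u, 2)))) +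
      x (Sum.inr (Sum.inr u)) + s u * x (Sum.inr (Sum.inr u)) =
      t (Sum.inr (Sum.inl u)) * x (Sum.inr (Sum.inl u)) := by
    intro x hx u
    have h1 := hmem x hx (Sum.inr (Sum.inl u))
    rw [As_mulVec, Pi.add_apply, hAx] at h1
    have e1 : ∑ k, cor (Sum.inr (Sum.inl u) : Nx I R) k * x k = x (Sum.inr (Sum.inr u)) := by
      rw [sum_eq_single (Sum.inr (Sum.inr u))]
      · simp [cor]
      · intro k _ hk
        rcases k with k | k | k
        · simp [cor]
        · simp [cor]
        · have : u ≠ k := fun h => hk (by rw [h])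
          simp [cor, this]
      · simp
    have e2 : (∑ v, s v • ((Pi.single (Sum.inr (Sum.inl v)) (x (Sum.inr (Sum.inr v))) :
        Nx I R → ZMod 2) + (Pi.single (Sum.inr (Sum.inr v)) (x (Sum.inr (Sum.inl v))) :
        Nx I R → ZMod 2)) : Nx I R → ZMod 2)
        (Sum.inr (Sum.inl u)) = s u * x (Sum.inr (Sum.inr u)) := by
      rw [Finset.sum_apply, sum_eq_single u]
      · simp
      · intro v _ hv
        simp [Pi.single_apply, hv.symm]
      · simp
    rw [e1, e2] at h1
    exact h1
  have hβ : ∀ x ∈ K, ∀ u : R, a x (l (pos (Sum.inr (u, 1)))) + a x (l (pos (Sum.inr (u, 2)))) +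
      s u * x (Sum.inr (Sum.inl u)) =
      t (Sum.inr (Sum.inr u)) * x (Sum.inr (Sum.inr u)) := by
    intro x hx u
    have h1 := hmem x hx (Sum.inr (Sum.inr u))
    rw [As_mulVec, Pi.add_apply, hAx] at h1
    have e1 : ∑ k, cor (Sum.inr (Sum.inr u) : Nx I R) k * x k = 0 := by
      refine sum_eq_zero fun k _ => ?_
      rcases k with k | k | k <;> simp [cor]
    have e2 : (∑ v, s v • ((Pi.single (Sum.inr (Sum.inl v)) (x (Sum.inr (Sum.inr v))) :
        Nx I R → ZMod 2) + (Pi.single (Sum.inr (Sum.inr v)) (x (Sum.inr (Sum.inl v))) :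
        Nx I R → ZMod 2)) : Nx I R → ZMod 2)
        (Sum.inr (Sum.inr u)) = s u * x (Sum.inr (Sum.inl u)) := by
      rw [Finset.sum_apply, sum_eq_single u]
      · simp
      · intro v _ hv
        simp [Pi.single_apply, hv.symm]
      · simp
    rw [e1, e2, add_zero] at h1
    exact h1
  -- jumps
  have hjump : ∀ x (q : Qx I R), a x (l (pos q)) + a x (r (pos q)) =
      ∑ j, x j * ((if q = fi j then 1 else 0) + (if q = si j then 1 else 0)) := by
    intro x q
    rw [had]
    simp only [hpos.eq_iff]
  have hjI : ∀ x (i : I) (k : Fin 2), a x (l (pos (Sum.inl (i, k)))) + a x (r (pos (Sum.inl (i, k)))) =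
      x (Sum.inl i) := by
    intro x i k
    rw [hjump, sum_eq_single (Sum.inl i)]
    · fin_cases k <;> simp [fi, si]
    · intro j _ hj
      rcases j with j | j | j
      · have : i ≠ j := fun h => hj (by rw [h])
        simp [fi, si, this]
      · simp [fi, si]
      · simp [fi, si]
    · simp
  have hj0 : ∀ x (u : R), a x (l (pos (Sum.inr (u, 0)))) + a x (r (pos (Sum.inr (u, 0)))) =
      x (Sum.inr (Sum.inl u)) := by
    intro x u
    rw [hjump, sum_eq_single (Sum.inr (Sum.inl u))]
    · simp [fi, si]
    · intro j _ hj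
      rcases j with j | j | j
      · simp [fi, si]
      · have : u ≠ j := fun h => hj (by rw [h])
        simp [fi, si, this]
      · simp [fi, si]
    · simp
  have hj1 : ∀ x (u : R), a x (l (pos (Sum.inr (u, 1)))) + a x (r (pos (Sum.inr (u, 1)))) =
      x (Sum.inr (Sum.inr u)) := by
    intro x u
    rw [hjump, sum_eq_single (Sum.inr (Sum.inr u))]
    · simp [fi, si]
    · intro j _ hj
      rcases j with j | j | j
      · simp [fi, si]
      · simp [fi, si]
      · have : u ≠ j := fun h => hj (by rw [h])
        simp [fi, si, this]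
    · simp
  have hj2 : ∀ x (u : R), a x (l (pos (Sum.inr (u, 2)))) + a x (r (pos (Sum.inr (u, 2)))) =
      x (Sum.inr (Sum.inl u)) + x (Sum.inr (Sum.inr u)) := by
    intro x u
    rw [hjump, ← Finset.add_sum_erase _ _ (mem_univ (Sum.inr (Sum.inl u))),
      sum_eq_single (Sum.inr (Sum.inr u))]
    · simp [fi, si]
    · intro j hj' hj
      rcases j with j | j | j
      · simp [fi, si]
      · have : u ≠ j := fun h => (ne_of_mem_erase hj') (by rw [h])
        simp [fi, si, this]
      · have : u ≠ j := fun h => hj (by rw [h])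
        simp [fi, si, this]
    · intro h
      exact absurd (mem_erase.2 ⟨by simp, mem_univ _⟩) h
  obtain ⟨col, hcol⟩ : ∃ col : Edg → K → ZMod 2, ∀ e (x : K), col e x = a x e :=
    ⟨fun e x => a x e, fun _ _ => rfl⟩
  refine ⟨K → ZMod 2, inferInstance, inferInstance, col, ?_, ?_, ?_, ?_⟩
  · -- proper
    intro q he
    have he' : ∀ x ∈ K, a x (l (pos q)) + a x (r (pos q)) = 0 := by
      intro x hx
      have := congrFun he ⟨x, hx⟩
      rw [hcol, hcol] at this
      rw [this, h2]
    rcases q with ⟨i, k⟩ | ⟨u, k⟩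
    · obtain ⟨x, hx, hne⟩ := hg1 (Sum.inl i)
      exact hne (by rw [← hjI x i k]; exact he' x hx)
    · fin_cases k
      · obtain ⟨x, hx, hne⟩ := hg1 (Sum.inr (Sum.inl u))
        exact hne (by rw [← hj0 x u]; exact he' x hx)
      · obtain ⟨x, hx, hne⟩ := hg1 (Sum.inr (Sum.inr u))
        exact hne (by rw [← hj1 x u]; exact he' x hx)
      · obtain ⟨x, hx, hne⟩ := hg2 u
        exact hne (by rw [← hj2 x u]; exact he' x hx)
  · intro p hp
    funext x
    have h1 := had x p
    have h3 : ∑ j, (x : Nx I R → ZMod 2) j *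
        ((if p = pos (fi j) then 1 else 0) + (if p = pos (si j) then 1 else 0)) = 0 := by
      refine sum_eq_zero fun j _ => ?_
      rw [if_neg fun h => hp ⟨_, h.symm⟩, if_neg fun h => hp ⟨_, h.symm⟩, add_zero, mul_zero]
    rw [h3] at h1
    rw [hcol, hcol]
    revert h1
    generalize a x (l p) = c
    generalize a x (r p) = d
    revert c d; decide
  · intro i c
    rw [Fin.sum_univ_two]
    rcases z2_cases (t (Sum.inl i)) with ht | ht
    · have q1 : col (l (pos (Sum.inl (i, 0)))) = col (l (pos (Sum.inl (i, 1)))) := by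
        funext x
        rw [hcol, hcol]
        have w1 := hI x x.2 i
        rw [ht] at w1
        revert w1
        generalize a x (l (pos (Sum.inl (i, 0)))) = c
        generalize a x (l (pos (Sum.inl (i, 1)))) = d
        generalize (x : Nx I R → ZMod 2) (Sum.inl i) = e
        revert c d e; decide
      have q2 : col (r (pos (Sum.inl (i, 0)))) = col (r (pos (Sum.inl (i, 1)))) := by
        funext x
        rw [hcol, hcol]
        have w1 := hI x x.2 i
        have w2 := hjI x i 0
        have w3 := hjI x i 1
        rw [ht] at w1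
        revert w1 w2 w3
        generalize a x (l (pos (Sum.inl (i, 0)))) = c
        generalize a x (l (pos (Sum.inl (i, 1)))) = d
        generalize a x (r (pos (Sum.inl (i, 0)))) = c'
        generalize a x (r (pos (Sum.inl (i, 1)))) = d'
        generalize (x : Nx I R → ZMod 2) (Sum.inl i) = e
        revert c d c' d' e; decide
      rw [q1, q2]
      exact ⟨_, rfl⟩
    · have q1 : col (l (pos (Sum.inl (i, 0)))) = col (r (pos (Sum.inl (i, 1)))) := by
        funext x
        rw [hcol, hcol]
        have w1 := hI x x.2 i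
        have w3 := hjI x i 1
        rw [ht] at w1
        revert w1 w3
        generalize a x (l (pos (Sum.inl (i, 0)))) = c
        generalize a x (l (pos (Sum.inl (i, 1)))) = d
        generalize a x (r (pos (Sum.inl (i, 1)))) = d'
        generalize (x : Nx I R → ZMod 2) (Sum.inl i) = e
        revert c d d' e; decide
      have q2 : col (r (pos (Sum.inl (i, 0)))) = col (l (pos (Sum.inl (i, 1)))) := by
        funext x
        rw [hcol, hcol]
        have w1 := hI x x.2 i
        have w2 := hjI x i 0
        rw [ht] at w1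
        revert w1 w2
        generalize a x (l (pos (Sum.inl (i, 0)))) = c
        generalize a x (l (pos (Sum.inl (i, 1)))) = d
        generalize a x (r (pos (Sum.inl (i, 0)))) = c'
        generalize (x : Nx I R → ZMod 2) (Sum.inl i) = e
        revert c d c' e; decide
      rw [q1, q2]
      split_ifs <;> decide
  · intro u c
    rw [Fin.sum_univ_three]
    -- pointwise relations
    have w : ∀ x : K, (col (l (pos (Sum.inr (u, 0)))) x + col (r (pos (Sum.inr (u, 0)))) x =
          (x : Nx I R → ZMod 2) (Sum.inr (Sum.inl u))) ∧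
        (col (l (pos (Sum.inr (u, 1)))) x + col (r (pos (Sum.inr (u, 1)))) x =
          (x : Nx I R → ZMod 2) (Sum.inr (Sum.inr u))) ∧
        (col (l (pos (Sum.inr (u, 2)))) x + col (r (pos (Sum.inr (u, 2)))) x =
          (x : Nx I R → ZMod 2) (Sum.inr (Sum.inl u)) + (x : Nx I R → ZMod 2) (Sum.inr (Sum.inr u))) ∧
        (col (l (pos (Sum.inr (u, 0)))) x + col (l (pos (Sum.inr (u, 2)))) x +
          (x : Nx I R → ZMod 2) (Sum.inr (Sum.inr u)) +
          s u * (x : Nx I R → ZMod 2) (Sum.inr (Sum.inr u)) =
          t (Sum.inr (Sum.inl u)) * (x : Nx I R → ZMod 2) (Sum.inr (Sum.inl u))) ∧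
        (col (l (pos (Sum.inr (u, 1)))) x + col (l (pos (Sum.inr (u, 2)))) x +
          s u * (x : Nx I R → ZMod 2) (Sum.inr (Sum.inl u)) =
          t (Sum.inr (Sum.inr u)) * (x : Nx I R → ZMod 2) (Sum.inr (Sum.inr u))) := by
      intro x
      simp only [hcol]
      exact ⟨hj0 x u, hj1 x u, hj2 x u, hα x x.2 u, hβ x x.2 u⟩
    generalize col (l (pos (Sum.inr (u, 0)))) = c0 at w ⊢
    generalize col (r (pos (Sum.inr (u, 0)))) = c0' at w ⊢
    generalize col (l (pos (Sum.inr (u, 1)))) = c1 at w ⊢
    generalize col (r (pos (Sum.inr (u, 1)))) = c1' at w ⊢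
    generalize col (l (pos (Sum.inr (u, 2)))) = c2 at w ⊢
    generalize col (r (pos (Sum.inr (u, 2)))) = c2' at w ⊢
    obtain ⟨xa, hxa⟩ : ∃ xa : K → ZMod 2, ∀ x : K, (x : Nx I R → ZMod 2) (Sum.inr (Sum.inl u)) = xa x :=
      ⟨_, fun _ => rfl⟩
    obtain ⟨xb, hxb⟩ : ∃ xb : K → ZMod 2, ∀ x : K, (x : Nx I R → ZMod 2) (Sum.inr (Sum.inr u)) = xb x :=
      ⟨_, fun _ => rfl⟩
    simp only [hxa, hxb] at w
    generalize s u = S at w
    generalize t (Sum.inr (Sum.inl u)) = ta at w
    generalize t (Sum.inr (Sum.inr u)) = tb at w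
    exact tri_even c0 c0' c1 c1' c2 c2' xa xb S ta tb w c

end core

section covers

variable {V E : Type} [Fintype V] [DecidableEq V] [Fintype E] [DecidableEq E]

theorem exists_ends (G : MGraph V E) (e : E) : ∃ a b, a ≠ b ∧ G.ends e = s(a, b) := by
  obtain ⟨a, b, h⟩ : ∃ a b, G.ends e = s(a, b) := by
    induction G.ends e using Sym2.ind with
    | _ a b => exact ⟨a, b, rfl⟩
  refine ⟨a, b, fun hab => ?_, h⟩
  apply G.loopless e
  rw [h, hab]
  exact Sym2.mk_isDiag_iff.2 rfl

/-- the component of an edge -/
theorem component (G : MGraph V E) (D : Finset E) (hD : ∀ v, dg G D v = 0 ∨ dg G D v = 2)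
    (hne : D.Nonempty) : ∃ X, X ⊆ D ∧ IsCircuit G X ∧ ∀ v, dg G (D \ X) v = 0 ∨ dg G (D \ X) v = 2 := by
  classical
  obtain ⟨e0, he0⟩ := hne
  obtain ⟨X, hX⟩ : ∃ X, X = D.filter fun f =>
      Relation.ReflTransGen (fun a b => b ∈ D ∧ Touch G a b) e0 f := ⟨_, rfl⟩
  have hmem : ∀ f, f ∈ X ↔ f ∈ D ∧ Relation.ReflTransGen (fun a b => b ∈ D ∧ Touch G a b) e0 f := by
    intro f; rw [hX, mem_filter]
  have hXD : X ⊆ D := fun f hf => ((hmem f).1 hf).1
  have h0X : e0 ∈ X := (hmem e0).2 ⟨he0, Relation.ReflTransGen.refl⟩
  have hclosed : ∀ f ∈ X, ∀ g ∈ D, Touch G f g → g ∈ X := by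
    intro f hf g hg hfg
    exact (hmem g).2 ⟨hg, ((hmem f).1 hf).2.tail ⟨hg, hfg⟩⟩
  -- local structure
  have hloc : ∀ v, (X.filter fun e => v ∈ G.ends e) = ∅ ∨
      (X.filter fun e => v ∈ G.ends e) = (D.filter fun e => v ∈ G.ends e) := by
    intro v
    by_cases h : (X.filter fun e => v ∈ G.ends e) = ∅
    · exact Or.inl h
    · right
      obtain ⟨f, hf⟩ := Finset.nonempty_iff_ne_empty.2 h
      rw [mem_filter] at hf
      ext g
      rw [mem_filter, mem_filter]
      constructor
      · rintro ⟨h1, h2⟩; exact ⟨hXD h1, h2⟩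
      · rintro ⟨h1, h2⟩; exact ⟨hclosed f hf.1 g h1 ⟨v, hf.2, h2⟩, h2⟩
  refine ⟨X, hXD, ⟨⟨e0, h0X⟩, ?_, ?_⟩, ?_⟩
  · intro v
    unfold dg
    rcases hloc v with h | h
    · left; rw [h, card_empty]
    · rw [h]; exact hD v
  · have hfrom : ∀ f, Relation.ReflTransGen (fun a b => b ∈ D ∧ Touch G a b) e0 f →
        Relation.ReflTransGen (fun a b => b ∈ X ∧ Touch G a b) e0 f ∧ f ∈ X := by
      intro f hf
      induction hf with
      | refl => exact ⟨Relation.ReflTransGen.refl, h0X⟩
      | tail h1 h2 ih =>
        have hb := hclosed _ ih.2 _ h2.1 h2.2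
        exact ⟨ih.1.tail ⟨hb, h2.2⟩, hb⟩
    have hto : ∀ f, Relation.ReflTransGen (fun a b => b ∈ D ∧ Touch G a b) e0 f →
        Relation.ReflTransGen (fun a b => b ∈ X ∧ Touch G a b) f e0 ∧ f ∈ X := by
      intro f hf
      induction hf with
      | refl => exact ⟨Relation.ReflTransGen.refl, h0X⟩
      | tail h1 h2 ih =>
        have hb := hclosed _ ih.2 _ h2.1 h2.2
        obtain ⟨v, hv1, hv2⟩ := h2.2
        exact ⟨Relation.ReflTransGen.head ⟨ih.2, v, hv2, hv1⟩ ih.1, hb⟩
    intro e he f hf
    exact (hto e ((hmem e).1 he).2).1.trans (hfrom f ((hmem f).1 hf).2).1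
  · intro v
    unfold dg
    have hfs : (D \ X).filter (fun e => v ∈ G.ends e) =
        (D.filter fun e => v ∈ G.ends e) \ (X.filter fun e => v ∈ G.ends e) := by
      ext f
      simp only [mem_filter, mem_sdiff]
      tauto
    rw [hfs]
    rcases hloc v with h | h
    · rw [h, sdiff_empty]; exact hD v
    · left; rw [h]; simp

/-- decomposition of an even edge set into circuits -/
theorem decompose (G : MGraph V E) (n : ℕ) : ∀ D : Finset E, D.card ≤ n →
    (∀ v, dg G D v = 0 ∨ dg G D v = 2) →
    ∃ M : Multiset (Finset E), (∀ X ∈ M, IsCircuit G X) ∧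
      ∀ e, M.countP (e ∈ ·) = if e ∈ D then 1 else 0 := by
  induction n with
  | zero =>
    intro D hD _
    have : D = ∅ := card_eq_zero.1 (Nat.le_zero.1 hD)
    subst this
    exact ⟨0, by simp, by simp⟩
  | succ n ih =>
    intro D hcard hD
    rcases D.eq_empty_or_nonempty with h | hne
    · subst h
      exact ⟨0, by simp, by simp⟩
    · obtain ⟨X, hXD, hX, hrest⟩ := component G D hD hne
      have hlt : (D \ X).card ≤ n := by
        have := card_sdiff_add_card_eq_card hXD
        have := hX.1.card_pos
        omega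
      obtain ⟨M, hM1, hM2⟩ := ih (D \ X) hlt hrest
      refine ⟨X ::ₘ M, ?_, ?_⟩
      · intro Y hY
        rcases Multiset.mem_cons.1 hY with h | h
        · rw [h]; exact hX
        · exact hM1 Y h
      · intro e
        rw [Multiset.countP_cons, hM2]
        by_cases h1 : e ∈ X
        · simp [h1, hXD h1]
        · by_cases h2 : e ∈ D <;> simp [h1, h2]

theorem card_ends (G : MGraph V E) (e : E) : (univ.filter fun v => v ∈ G.ends e).card = 2 := by
  obtain ⟨a, b, hab, h⟩ := exists_ends G e
  have : (univ.filter fun v => v ∈ G.ends e) = {a, b} := by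
    ext v
    simp [h]
  rw [this, card_pair hab]

/-- double counting over a 2-regular edge set -/
theorem half_edges (G : MGraph V E) (C : Finset E) (h : E → ZMod 2) :
    ∑ v, ∑ e ∈ C, (if v ∈ G.ends e then h e else 0) = 0 := by
  rw [sum_comm]
  refine sum_eq_zero fun e _ => ?_
  rw [← sum_filter, sum_const, card_ends, two_smul]
  generalize h e = z
  revert z; decide

/-- two vertices of a circuit are joined by a potential -/
theorem potential (G : MGraph V E) (C : Finset E) (hC : IsCircuit G C) (p q : V)
    (hp : dg G C p = 2) (hq : dg G C q = 2) : ∃ b : E → ZMod 2, ∀ x,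
      ∑ e ∈ C, (if x ∈ G.ends e then b e else 0) =
        (if x = p then 1 else 0) + (if x = q then 1 else 0) := by
  have h2 : ∀ z : ZMod 2, z + z = 0 := by decide
  have key : ∀ e ∈ C, ∀ f, Relation.ReflTransGen (fun a b => b ∈ C ∧ Touch G a b) e f →
      ∀ v ∈ G.ends e, ∀ w ∈ G.ends f, ∃ b : E → ZMod 2, ∀ x,
      ∑ e ∈ C, (if x ∈ G.ends e then b e else 0) =
        (if x = v then 1 else 0) + (if x = w then 1 else 0) := by
    have step : ∀ e ∈ C, ∀ v ∈ G.ends e, ∀ w ∈ G.ends e, ∃ b : E → ZMod 2, ∀ x,
        ∑ e ∈ C, (if x ∈ G.ends e then b e else 0) =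
        (if x = v then 1 else 0) + (if x = w then 1 else 0) := by
      intro e he v hv w hw
      by_cases hvw : v = w
      · refine ⟨0, fun x => ?_⟩
        subst hvw
        rw [h2]
        simp
      · refine ⟨Pi.single e 1, fun x => ?_⟩
        rw [sum_eq_single e]
        · have hx : x ∈ G.ends e ↔ x = v ∨ x = w := by
            rw [(Sym2.mem_and_mem_iff hvw).1 ⟨hv, hw⟩, Sym2.mem_iff]
          rw [Pi.single_eq_same]
          by_cases h1 : x = v
          · have h3 : ¬ x = w := fun h => hvw (h1.symm.trans h)
            rw [if_pos (hx.2 (Or.inl h1)), if_pos h1, if_neg h3, add_zero]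
          · by_cases h3 : x = w
            · rw [if_pos (hx.2 (Or.inr h3)), if_neg h1, if_pos h3, zero_add]
            · rw [if_neg (fun h => (hx.1 h).elim h1 h3), if_neg h1, if_neg h3, add_zero]
        · intro f _ hf
          rw [Pi.single_eq_of_ne hf]; simp
        · intro h; exact absurd he h
    intro e he f hf
    induction hf with
    | refl => exact step e he
    | tail h1 h3 ih =>
      rename_i a b
      intro v hv w hw
      obtain ⟨u, hu1, hu2⟩ := h3.2
      obtain ⟨b1, hb1⟩ := ih v hv u hu1
      obtain ⟨b2, hb2⟩ := step b h3.1 u hu2 w hw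
      refine ⟨b1 + b2, fun x => ?_⟩
      have : ∀ e, (if x ∈ G.ends e then (b1 + b2) e else 0) =
          (if x ∈ G.ends e then b1 e else 0) + (if x ∈ G.ends e then b2 e else 0) := by
        intro e
        by_cases h : x ∈ G.ends e
        · rw [if_pos h, if_pos h, if_pos h, Pi.add_apply]
        · rw [if_neg h, if_neg h, if_neg h, add_zero]
      simp only [this, sum_add_distrib, hb1, hb2]
      have := h2 (if x = u then 1 else 0)
      linear_combination this
  have hne : ∀ v, dg G C v = 2 → ∃ e ∈ C, v ∈ G.ends e := by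
    intro v hv
    have : (C.filter fun e => v ∈ G.ends e).Nonempty := by
      rw [← card_pos]; unfold dg at hv; omega
    obtain ⟨e, he⟩ := this
    rw [mem_filter] at he
    exact ⟨e, he.1, he.2⟩
  obtain ⟨e, he, hpe⟩ := hne p hp
  obtain ⟨f, hf, hqf⟩ := hne q hq
  exact key e he f (hC.2.2 e he f hf) p hpe q hqf

theorem countP_sum {ι α : Type} (s : Finset ι) (M : ι → Multiset α) (p : α → Prop)
    [DecidablePred p] : (∑ i ∈ s, M i).countP p = ∑ i ∈ s, (M i).countP p := by
  classical
  induction s using Finset.induction_on with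
  | empty => simp
  | insert a s ha ih => rw [sum_insert ha, sum_insert ha, Multiset.countP_add, ih]

/-- MAIN GRAPH THEOREM -/
theorem dominating_general (G : MGraph V E) (H C : Finset E) (hCH : C ⊆ H) (hC : IsCircuit G C)
    (hon : ∀ v, dg G C v = 2 → dg G H v = 2 ∨ dg G H v = 3)
    (hoff : ∀ v, dg G C v = 0 → dg G H v = 0 ∨ dg G H v = 3)
    (hdom : ∀ e ∈ H, ∃ v ∈ G.ends e, dg G C v = 2) :
    ∃ F : Multiset (Finset E), (∀ X ∈ F, IsCircuit G X) ∧
      (∀ e, F.countP (e ∈ ·) = if e ∈ H then 2 else 0) ∧ C ∈ F := by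
  classical
  -- the two C-edges at a vertex
  have hlr : ∀ p : {v // dg G C v = 2}, ∃ x y : {e // e ∈ C}, x ≠ y ∧
      ∀ e : {e // e ∈ C}, p.1 ∈ G.ends e.1 ↔ e = x ∨ e = y := by
    intro p
    have h1 := p.2
    unfold dg at h1
    obtain ⟨x, y, hxy, h2⟩ := card_eq_two.1 h1
    have hx : x ∈ C.filter fun e => p.1 ∈ G.ends e := by rw [h2]; simp
    have hy : y ∈ C.filter fun e => p.1 ∈ G.ends e := by rw [h2]; simp
    rw [mem_filter] at hx hy
    refine ⟨⟨x, hx.1⟩, ⟨y, hy.1⟩, fun h => hxy (congrArg Subtype.val h), ?_⟩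
    rintro ⟨e, he⟩
    constructor
    · intro h
      have : e ∈ C.filter fun e => p.1 ∈ G.ends e := mem_filter.2 ⟨he, h⟩
      rw [h2, mem_insert, mem_singleton] at this
      rcases this with h3 | h3
      · exact Or.inl (Subtype.ext h3)
      · exact Or.inr (Subtype.ext h3)
    · rintro (h3 | h3)
      · rw [h3]; exact hx.2
      · rw [h3]; exact hy.2
  choose l r hlrne hlrmem using hlr
  have hsum : ∀ (p : {v // dg G C v = 2}) (h : E → ZMod 2),
      ∑ e ∈ C, (if p.1 ∈ G.ends e then h e else 0) = h (l p).1 + h (r p).1 := by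
    intro p h
    rw [← sum_filter]
    have : (C.filter fun e => p.1 ∈ G.ends e) = {(l p).1, (r p).1} := by
      ext e
      rw [mem_filter, mem_insert, mem_singleton]
      constructor
      · rintro ⟨h1, h2⟩
        rcases (hlrmem p ⟨e, h1⟩).1 h2 with h3 | h3
        · exact Or.inl (congrArg Subtype.val h3)
        · exact Or.inr (congrArg Subtype.val h3)
      · rintro (h3 | h3)
        · rw [h3]; exact ⟨(l p).2, (hlrmem p (l p)).2 (Or.inl rfl)⟩
        · rw [h3]; exact ⟨(r p).2, (hlrmem p (r p)).2 (Or.inr rfl)⟩
    rw [this, sum_pair]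
    intro h; exact hlrne p (Subtype.ext h)
  have H1 : ∀ h : {e // e ∈ C} → ZMod 2, ∑ p, (h (l p) + h (r p)) = 0 := by
    intro h
    obtain ⟨h', hh'⟩ : ∃ h' : E → ZMod 2, ∀ e : {e // e ∈ C}, h' e.1 = h e :=
      ⟨fun e => if he : e ∈ C then h ⟨e, he⟩ else 0, fun e => by simp [e.2]⟩
    have h1 : ∀ p : {v // dg G C v = 2}, h (l p) + h (r p) =
        ∑ e ∈ C, (if p.1 ∈ G.ends e then h' e else 0) := by
      intro p; rw [hsum, hh', hh']
    simp only [h1]
    have hst : ∑ v ∈ univ.filter (fun v => dg G C v = 2),
        ∑ e ∈ C, (if v ∈ G.ends e then h' e else 0) =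
        ∑ p : {v // dg G C v = 2}, ∑ e ∈ C, (if p.1 ∈ G.ends e then h' e else 0) :=
      Finset.sum_subtype _ (by simp) _
    refine hst.symm.trans (Eq.trans ?_ (half_edges G C h'))
    refine sum_subset (filter_subset _ _) fun v _ hv => ?_
    have hv0 : dg G C v = 0 := by
      rcases hC.2.1 v with h2 | h2
      · exact h2
      · exact absurd (mem_filter.2 ⟨mem_univ v, h2⟩ : v ∈ univ.filter (fun v => dg G C v = 2)) hv
    unfold dg at hv0
    rw [card_eq_zero] at hv0
    rw [← sum_filter, hv0, sum_empty]
  have H2 : ∀ p q : {v // dg G C v = 2}, ∃ b : {e // e ∈ C} → ZMod 2, ∀ x,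
      b (l x) + b (r x) = (if x = p then 1 else 0) + (if x = q then 1 else 0) := by
    intro p q
    obtain ⟨b, hb⟩ := potential G C hC p.1 q.1 p.2 q.2
    refine ⟨fun e => b e.1, fun x => ?_⟩
    rw [← hsum x b, hb x.1]
    simp only [Subtype.ext_iff]
  -- ends of chords
  have hch : ∀ i : {e // e ∈ H ∧ e ∉ C ∧ ∀ v ∈ G.ends e, dg G C v = 2}, ∃ a b : {v // dg G C v = 2},
      a ≠ b ∧ G.ends i.1 = s(a.1, b.1) := by
    intro i
    obtain ⟨a, b, hab, h⟩ := exists_ends G i.1
    refine ⟨⟨a, i.2.2.2 a (by rw [h]; simp)⟩, ⟨b, i.2.2.2 b (by rw [h]; simp)⟩, ?_, h⟩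
    intro h'; exact hab (congrArg Subtype.val h')
  choose ca cb hcab hcends using hch
  -- legs of outside vertices
  have hleg : ∀ u : {v // dg G C v = 0 ∧ dg G H v = 3}, ∃ f : Fin 3 → E, Function.Injective f ∧
      ∀ e, (e ∈ H ∧ u.1 ∈ G.ends e) ↔ ∃ k, f k = e := by
    intro u
    have h1 := u.2.2
    unfold dg at h1
    obtain ⟨x, y, z, hxy, hxz, hyz, h2⟩ := card_eq_three.1 h1
    refine ⟨![x, y, z], ?_, ?_⟩
    · intro i j hij
      fin_cases i <;> fin_cases j <;> simp_all
    · intro e
      rw [← mem_filter (p := fun e => u.1 ∈ G.ends e), h2]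
      constructor
      · intro h
        simp only [mem_insert, mem_singleton] at h
        rcases h with h | h | h
        · exact ⟨0, h.symm⟩
        · exact ⟨1, h.symm⟩
        · exact ⟨2, h.symm⟩
      · rintro ⟨k, hk⟩
        fin_cases k <;> simp_all
  choose lg hlginj hlgmem using hleg
  have hlg1 : ∀ u k, lg u k ∈ H ∧ u.1 ∈ G.ends (lg u k) := fun u k => (hlgmem u _).2 ⟨k, rfl⟩
  have hoth : ∀ (u : {v // dg G C v = 0 ∧ dg G H v = 3}) (k : Fin 3),
      ∃ w : {v // dg G C v = 2}, G.ends (lg u k) = s(u.1, w.1) := by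
    intro u k
    obtain ⟨v, hv, hv2⟩ := hdom _ (hlg1 u k).1
    have hne : u.1 ≠ v := by
      intro h
      have := u.2.1
      rw [h, hv2] at this
      exact absurd this (by norm_num)
    exact ⟨⟨v, hv2⟩, (Sym2.mem_and_mem_iff hne).1 ⟨(hlg1 u k).2, hv⟩⟩
  choose w hw using hoth
  have hlgC : ∀ u k, lg u k ∉ C := by
    intro u k h
    have h1 := u.2.1
    unfold dg at h1
    rw [card_eq_zero] at h1
    have : lg u k ∈ C.filter fun e => u.1 ∈ G.ends e := mem_filter.2 ⟨h, (hlg1 u k).2⟩
    rw [h1] at this
    exact absurd this (notMem_empty _)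
  -- positions
  obtain ⟨pos, hpos1, hpos2, hpos3⟩ : ∃ pos : Qx {e // e ∈ H ∧ e ∉ C ∧ ∀ v ∈ G.ends e, dg G C v = 2}
      {v // dg G C v = 0 ∧ dg G H v = 3} → {v // dg G C v = 2},
      (∀ i, pos (Sum.inl (i, 0)) = ca i) ∧ (∀ i, pos (Sum.inl (i, 1)) = cb i) ∧
      (∀ u k, pos (Sum.inr (u, k)) = w u k) := by
    refine ⟨fun q => match q with
      | Sum.inl (i, k) => if k = 0 then ca i else cb i
      | Sum.inr (u, k) => w u k, ?_, ?_, ?_⟩
    · intro i; simp
    · intro i; simp
    · intro u k; rfl
  obtain ⟨eq, heq1, heq2⟩ : ∃ eq : Qx {e // e ∈ H ∧ e ∉ C ∧ ∀ v ∈ G.ends e, dg G C v = 2}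
      {v // dg G C v = 0 ∧ dg G H v = 3} → E,
      (∀ i k, eq (Sum.inl (i, k)) = i.1) ∧ (∀ u k, eq (Sum.inr (u, k)) = lg u k) :=
    ⟨fun q => match q with
      | Sum.inl (i, _) => i.1
      | Sum.inr (u, k) => lg u k, fun _ _ => rfl, fun _ _ => rfl⟩
  have hposI : ∀ i k, pos (Sum.inl (i, k)) = ca i ∨ pos (Sum.inl (i, k)) = cb i := by
    intro i k
    fin_cases k
    · exact Or.inl (hpos1 i)
    · exact Or.inr (hpos2 i)
  have heqprop : ∀ q, eq q ∈ H ∧ eq q ∉ C ∧ (pos q).1 ∈ G.ends (eq q) := by
    rintro (⟨i, k⟩ | ⟨u, k⟩)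
    · rw [heq1]
      refine ⟨i.2.1, i.2.2.1, ?_⟩
      rw [hcends]
      rcases hposI i k with h | h <;> rw [h] <;> simp
    · rw [heq2, hpos3]
      refine ⟨(hlg1 u k).1, hlgC u k, ?_⟩
      rw [hw]; simp
  -- uniqueness of the third edge
  have huniq : ∀ (p : {v // dg G C v = 2}) (e e' : E), e ∈ H → e ∉ C → p.1 ∈ G.ends e →
      e' ∈ H → e' ∉ C → p.1 ∈ G.ends e' → e = e' := by
    intro p e e' h1 h2 h3 h1' h2' h3'
    by_contra hne
    have hsub : ({(l p).1, (r p).1, e, e'} : Finset E) ⊆ H.filter fun e => p.1 ∈ G.ends e := by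
      intro x hx
      simp only [mem_insert, mem_singleton] at hx
      rw [mem_filter]
      rcases hx with h | h | h | h
      · rw [h]; exact ⟨hCH (l p).2, (hlrmem p (l p)).2 (Or.inl rfl)⟩
      · rw [h]; exact ⟨hCH (r p).2, (hlrmem p (r p)).2 (Or.inr rfl)⟩
      · rw [h]; exact ⟨h1, h3⟩
      · rw [h]; exact ⟨h1', h3'⟩
    have hc := card_le_card hsub
    have hl := (l p).2
    have hr := (r p).2
    have hlr' : (l p).1 ≠ (r p).1 := fun h => hlrne p (Subtype.ext h)
    rw [card_insert_of_notMem, card_insert_of_notMem, card_pair hne] at hc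
    · have := hon p.1 p.2
      unfold dg at this
      omega
    · simp only [mem_insert, mem_singleton, not_or]
      exact ⟨fun h => h2 (h ▸ hr), fun h => h2' (h ▸ hr)⟩
    · simp only [mem_insert, mem_singleton, not_or]
      exact ⟨hlr', fun h => h2 (h ▸ hl), fun h => h2' (h ▸ hl)⟩
  have hposinj : Function.Injective pos := by
    intro q q' hqq
    have he : eq q = eq q' := by
      have h1 := heqprop q
      have h2 := heqprop q'
      exact huniq (pos q) _ _ h1.1 h1.2.1 h1.2.2 h2.1 h2.2.1 (by rw [hqq]; exact h2.2.2)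
    rcases q with ⟨i, k⟩ | ⟨u, k⟩ <;> rcases q' with ⟨i', k'⟩ | ⟨u', k'⟩
    · rw [heq1, heq1] at he
      have hi : i = i' := Subtype.ext he
      subst hi
      have hkk : k = k' := by
        fin_cases k <;> fin_cases k'
        · rfl
        · have : ca i = cb i := by rw [← hpos1 i, ← hpos2 i]; exact hqq
          exact absurd this (hcab i)
        · have : cb i = ca i := by rw [← hpos1 i, ← hpos2 i]; exact hqq
          exact absurd this.symm (hcab i)
        · rfl
      rw [hkk]
    · rw [heq1, heq2] at he
      have h1 := i.2.2.2 u'.1 (by rw [he]; exact (hlg1 u' k').2)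
      rw [u'.2.1] at h1
      exact absurd h1 (by norm_num)
    · rw [heq1, heq2] at he
      have h1 := i'.2.2.2 u.1 (by rw [← he]; exact (hlg1 u k).2)
      rw [u.2.1] at h1
      exact absurd h1 (by norm_num)
    · rw [heq2, heq2] at he
      have hu : u.1 = u'.1 := by
        have h1 : u'.1 ∈ G.ends (lg u k) := by rw [he]; exact (hlg1 u' k').2
        rw [hw, Sym2.mem_iff] at h1
        rcases h1 with h1 | h1
        · exact h1.symm
        · have h2 := u'.2.1
          rw [h1, (w u k).2] at h2
          exact absurd h2 (by norm_num)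
      have hu' : u = u' := Subtype.ext hu
      subst hu'
      rw [hlginj u he]
  have hcover : ∀ (p : {v // dg G C v = 2}) (e : E), e ∈ H → e ∉ C → p.1 ∈ G.ends e →
      ∃ q, pos q = p ∧ eq q = e := by
    intro p e h1 h2 h3
    by_cases hall : ∀ v ∈ G.ends e, dg G C v = 2
    · have h4 := h3
      rw [hcends ⟨e, h1, h2, hall⟩, Sym2.mem_iff] at h4
      rcases h4 with h4 | h4
      · exact ⟨Sum.inl (⟨e, h1, h2, hall⟩, 0), by rw [hpos1]; exact Subtype.ext h4.symm, heq1 _ _⟩
      · exact ⟨Sum.inl (⟨e, h1, h2, hall⟩, 1), by rw [hpos2]; exact Subtype.ext h4.symm, heq1 _ _⟩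
    · push Not at hall
      obtain ⟨u, hu, hu2⟩ := hall
      have hu0 : dg G C u = 0 := (hC.2.1 u).resolve_right hu2
      have hu3 : dg G H u = 3 := by
        rcases hoff u hu0 with h | h
        · unfold dg at h
          rw [card_eq_zero] at h
          have : e ∈ H.filter fun e => u ∈ G.ends e := mem_filter.2 ⟨h1, hu⟩
          rw [h] at this
          exact absurd this (notMem_empty _)
        · exact h
      obtain ⟨k, hk⟩ := (hlgmem ⟨u, hu0, hu3⟩ e).1 ⟨h1, hu⟩
      refine ⟨Sum.inr (⟨u, hu0, hu3⟩, k), ?_, by rw [heq2]; exact hk⟩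
      rw [hpos3]
      have h4 := h3
      rw [← hk, hw, Sym2.mem_iff] at h4
      rcases h4 with h4 | h4
      · have := p.2
        rw [h4] at this
        change dg G C u = 2 at this
        omega
      · exact Subtype.ext h4.symm
  obtain ⟨F, hF1, hF2, col, hprop, hfree, hcI, hcR⟩ := core l r H1 H2 pos hposinj
  -- membership of a colour
  obtain ⟨pr, hpr⟩ : ∃ pr : {v // dg G C v = 2} → F → Prop,
      ∀ p c, pr p c ↔ (col (l p) = c ∨ col (r p) = c) := ⟨_, fun _ _ => Iff.rfl⟩
  have hcovered : ∀ p : {v // dg G C v = 2}, dg G H p.1 = 3 → ∃ q, pos q = p := by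
    intro p hp
    have hsub : ({(l p).1, (r p).1} : Finset E) ⊆ H.filter fun e => p.1 ∈ G.ends e := by
      intro x hx
      simp only [mem_insert, mem_singleton] at hx
      rw [mem_filter]
      rcases hx with h | h
      · rw [h]; exact ⟨hCH (l p).2, (hlrmem p (l p)).2 (Or.inl rfl)⟩
      · rw [h]; exact ⟨hCH (r p).2, (hlrmem p (r p)).2 (Or.inr rfl)⟩
    have hex : ∃ e ∈ H.filter fun e => p.1 ∈ G.ends e, e ∉ ({(l p).1, (r p).1} : Finset E) := by
      by_contra hcon
      push Not at hcon
      have := card_le_card (show (H.filter fun e => p.1 ∈ G.ends e) ⊆ {(l p).1, (r p).1} from hcon)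
      have h2 : ({(l p).1, (r p).1} : Finset E).card ≤ 2 := card_le_two
      unfold dg at hp
      omega
    obtain ⟨e, he, he2⟩ := hex
    rw [mem_filter] at he
    have heC : e ∉ C := by
      intro h
      apply he2
      rcases (hlrmem p ⟨e, h⟩).1 he.2 with h3 | h3
      · rw [← h3]; simp
      · rw [← h3]; simp
    obtain ⟨q, hq, _⟩ := hcover p e he.1 heC he.2
    exact ⟨q, hq⟩
  -- both ends of a chord see the same colours
  have hbr : ∀ (q : Qx {e // e ∈ H ∧ e ∉ C ∧ ∀ v ∈ G.ends e, dg G C v = 2}
      {v // dg G C v = 0 ∧ dg G H v = 3}) (c : F),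
      ((if col (l (pos q)) = c then 1 else 0) + (if col (r (pos q)) = c then 1 else 0)) =
        if pr (pos q) c then 1 else 0 := by
    intro q c
    have h1 := hprop q
    rw [if_congr (hpr (pos q) c) rfl rfl]
    by_cases h2 : col (l (pos q)) = c
    · have h3 : ¬ col (r (pos q)) = c := fun h => h1 (h2.trans h.symm)
      simp [h2, h3]
    · by_cases h3 : col (r (pos q)) = c <;> simp [h2, h3]
  have hchord : ∀ i c, pr (ca i) c ↔ pr (cb i) c := by
    intro i c
    have h1 := hcI i c
    rw [Fin.sum_univ_two, hbr, hbr, hpos1, hpos2] at h1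
    by_cases h2 : pr (ca i) c <;> by_cases h3 : pr (cb i) c <;> simp [h2, h3] at h1 ⊢
  -- colour classes
  obtain ⟨D, hD⟩ : ∃ D : F → Finset E, ∀ c e, e ∈ D c ↔ e ∈ H ∧
      ((∃ he : e ∈ C, col ⟨e, he⟩ = c) ∨ (e ∉ C ∧ ∃ p : {v // dg G C v = 2}, p.1 ∈ G.ends e ∧ pr p c)) :=
    ⟨fun c => H.filter fun e => ((∃ he : e ∈ C, col ⟨e, he⟩ = c) ∨
      (e ∉ C ∧ ∃ p : {v // dg G C v = 2}, p.1 ∈ G.ends e ∧ pr p c)), fun c e => mem_filter⟩
  have hDC : ∀ c (e : {e // e ∈ C}), e.1 ∈ D c ↔ col e = c := by
    intro c e
    rw [hD]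
    constructor
    · rintro ⟨_, ⟨_, h⟩ | ⟨h, _⟩⟩
      · exact h
      · exact absurd e.2 h
    · intro h; exact ⟨hCH e.2, Or.inl ⟨e.2, h⟩⟩
  have hDq : ∀ c q, eq q ∈ D c ↔ pr (pos q) c := by
    intro c q
    have hq := heqprop q
    rw [hD]
    constructor
    · rintro ⟨_, ⟨h, _⟩ | ⟨_, p, hp, hpc⟩⟩
      · exact absurd h hq.2.1
      · rcases q with ⟨i, k⟩ | ⟨u, k⟩
        · rw [heq1, hcends, Sym2.mem_iff] at hp
          have h1 : pr (ca i) c := by
            rcases hp with hp | hp
            · rw [← Subtype.ext hp]; exact hpc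
            · rw [hchord, ← Subtype.ext hp]; exact hpc
          rcases hposI i k with h | h
          · rw [h]; exact h1
          · rw [h, ← hchord]; exact h1
        · rw [heq2, hw, Sym2.mem_iff] at hp
          rw [hpos3]
          rcases hp with hp | hp
          · have := p.2
            rw [hp] at this
            have h3 := u.2.1
            rw [this] at h3
            exact absurd h3 (by norm_num)
          · rw [← Subtype.ext hp]; exact hpc
    · intro h
      exact ⟨hq.1, Or.inr ⟨hq.2.1, pos q, hq.2.2, h⟩⟩
  -- degrees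
  have hdeg : ∀ c v, dg G (D c) v = 0 ∨ dg G (D c) v = 2 := by
    intro c v
    rcases hC.2.1 v with h0 | hv2
    · rcases hoff v h0 with h1 | h1
      · left
        unfold dg at h1 ⊢
        rw [card_eq_zero] at h1 ⊢
        rw [eq_empty_iff_forall_notMem]
        intro e he
        rw [mem_filter, hD] at he
        have : e ∈ H.filter fun e => v ∈ G.ends e := mem_filter.2 ⟨he.1.1, he.2⟩
        rw [h1] at this
        exact absurd this (notMem_empty _)
      · have hcard : dg G (D c) v = (univ.filter fun k : Fin 3 => pr (w ⟨v, h0, h1⟩ k) c).card := by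
          unfold dg
          rw [← card_image_of_injective _ (hlginj ⟨v, h0, h1⟩)]
          congr 1
          ext e
          rw [mem_filter, mem_image]
          constructor
          · rintro ⟨h2, h3⟩
            obtain ⟨k, hk⟩ := (hlgmem ⟨v, h0, h1⟩ e).1 ⟨((hD c e).1 h2).1, h3⟩
            refine ⟨k, mem_filter.2 ⟨mem_univ _, ?_⟩, hk⟩
            have := hDq c (Sum.inr (⟨v, h0, h1⟩, k))
            rw [heq2, hpos3, hk] at this
            exact this.1 h2
          · rintro ⟨k, hk, rfl⟩
            rw [mem_filter] at hk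
            refine ⟨?_, (hlg1 ⟨v, h0, h1⟩ k).2⟩
            have := hDq c (Sum.inr (⟨v, h0, h1⟩, k))
            rw [heq2, hpos3] at this
            exact this.2 hk.2
        have hev := hcR ⟨v, h0, h1⟩ c
        simp only [hbr] at hev
        simp only [hpos3] at hev
        rw [sum_boole] at hev
        have hle : (univ.filter fun k : Fin 3 => pr (w ⟨v, h0, h1⟩ k) c).card ≤ 3 :=
          (card_filter_le _ _).trans (by simp)
        rw [hcard]
        simp only [Nat.cast_id] at hev
        rw [Nat.even_iff] at hev
        omega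
    · obtain ⟨p, hp⟩ : ∃ p : {v // dg G C v = 2}, p.1 = v := ⟨⟨v, hv2⟩, rfl⟩
      have hCp : ∀ e, e ∈ C → v ∈ G.ends e → e = (l p).1 ∨ e = (r p).1 := by
        intro e he hve
        rcases (hlrmem p ⟨e, he⟩).1 (by rw [hp]; exact hve) with h | h
        · exact Or.inl (congrArg Subtype.val h)
        · exact Or.inr (congrArg Subtype.val h)
      have hlv : v ∈ G.ends (l p).1 := by rw [← hp]; exact (hlrmem p (l p)).2 (Or.inl rfl)
      have hrv : v ∈ G.ends (r p).1 := by rw [← hp]; exact (hlrmem p (r p)).2 (Or.inr rfl)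
      have hlr' : (l p).1 ≠ (r p).1 := fun h => hlrne p (Subtype.ext h)
      by_cases hcov : ∃ q, pos q = p
      · obtain ⟨q, hq⟩ := hcov
        have hprq := hprop q
        rw [hq] at hprq
        have h3 := heqprop q
        rw [hq, hp] at h3
        have hset : ∀ e, (e ∈ D c ∧ v ∈ G.ends e) ↔
            (e = (l p).1 ∧ col (l p) = c) ∨ (e = (r p).1 ∧ col (r p) = c) ∨ (e = eq q ∧ pr p c) := by
          intro e
          constructor
          · rintro ⟨h4, h5⟩
            by_cases heC : e ∈ C
            · rcases hCp e heC h5 with h | h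
              · left; subst h; exact ⟨rfl, (hDC c (l p)).1 h4⟩
              · right; left; subst h; exact ⟨rfl, (hDC c (r p)).1 h4⟩
            · right; right
              have h6 : e = eq q := huniq p e (eq q) ((hD c e).1 h4).1 heC (by rw [hp]; exact h5)
                h3.1 h3.2.1 (by rw [hp]; exact h3.2.2)
              subst h6
              refine ⟨rfl, ?_⟩
              rw [hDq, hq] at h4
              exact h4
          · rintro (⟨h4, h5⟩ | ⟨h4, h5⟩ | ⟨h4, h5⟩)
            · rw [h4]; exact ⟨(hDC c (l p)).2 h5, hlv⟩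
            · rw [h4]; exact ⟨(hDC c (r p)).2 h5, hrv⟩
            · rw [h4]
              refine ⟨?_, h3.2.2⟩
              rw [hDq, hq]; exact h5
        unfold dg
        by_cases c1 : col (l p) = c
        · have c2 : ¬ col (r p) = c := fun h => hprq (c1.trans h.symm)
          have c3 : pr p c := (hpr p c).2 (Or.inl c1)
          right
          have : (D c).filter (fun e => v ∈ G.ends e) = {(l p).1, eq q} := by
            ext e
            rw [mem_filter, hset, mem_insert, mem_singleton]
            simp [c1, c2, c3]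
          rw [this, card_pair]
          intro h; exact h3.2.1 (h ▸ (l p).2)
        · by_cases c2 : col (r p) = c
          · have c3 : pr p c := (hpr p c).2 (Or.inr c2)
            right
            have : (D c).filter (fun e => v ∈ G.ends e) = {(r p).1, eq q} := by
              ext e
              rw [mem_filter, hset, mem_insert, mem_singleton]
              simp [c1, c2, c3]
            rw [this, card_pair]
            intro h; exact h3.2.1 (h ▸ (r p).2)
          · left
            have c3 : ¬ pr p c := fun h => ((hpr p c).1 h).elim c1 c2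
            rw [card_eq_zero, eq_empty_iff_forall_notMem]
            intro e
            rw [mem_filter, hset]
            simp [c1, c2, c3]
      · have hno : ∀ e, e ∈ H → v ∈ G.ends e → e ∈ C := by
          intro e h1 h2
          by_contra h3
          obtain ⟨q, hq, _⟩ := hcover p e h1 h3 (by rw [hp]; exact h2)
          exact hcov ⟨q, hq⟩
        have heqc : col (l p) = col (r p) := hfree p (by rintro ⟨q, hq⟩; exact hcov ⟨q, hq⟩)
        have hset : ∀ e, (e ∈ D c ∧ v ∈ G.ends e) ↔
            (e = (l p).1 ∧ col (l p) = c) ∨ (e = (r p).1 ∧ col (r p) = c) := by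
          intro e
          constructor
          · rintro ⟨h4, h5⟩
            have heC := hno e ((hD c e).1 h4).1 h5
            rcases hCp e heC h5 with h | h
            · left; subst h; exact ⟨rfl, (hDC c (l p)).1 h4⟩
            · right; subst h; exact ⟨rfl, (hDC c (r p)).1 h4⟩
          · rintro (⟨h4, h5⟩ | ⟨h4, h5⟩)
            · rw [h4]; exact ⟨(hDC c (l p)).2 h5, hlv⟩
            · rw [h4]; exact ⟨(hDC c (r p)).2 h5, hrv⟩
        unfold dg
        by_cases c1 : col (l p) = c
        · right
          have c2 : col (r p) = c := heqc ▸ c1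
          have : (D c).filter (fun e => v ∈ G.ends e) = {(l p).1, (r p).1} := by
            ext e
            rw [mem_filter, hset, mem_insert, mem_singleton]
            simp [c1, c2]
          rw [this, card_pair hlr']
        · left
          have c2 : ¬ col (r p) = c := fun h => c1 (heqc.trans h)
          rw [card_eq_zero, eq_empty_iff_forall_notMem]
          intro e
          rw [mem_filter, hset]
          simp [c1, c2]
  -- decompose
  have hdec := fun c => decompose G (D c).card (D c) le_rfl (hdeg c)
  choose M hM1 hM2 using hdec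
  refine ⟨C ::ₘ ∑ c, M c, ?_, ?_, Multiset.mem_cons_self _ _⟩
  · intro X hX
    rcases Multiset.mem_cons.1 hX with h | h
    · rw [h]; exact hC
    · rw [Multiset.mem_sum] at h
      obtain ⟨c, _, h⟩ := h
      exact hM1 c X h
  · intro e
    have hcs : (∑ c, M c).countP (e ∈ ·) = ∑ c, (M c).countP (e ∈ ·) := countP_sum _ _ _
    rw [Multiset.countP_cons, hcs]
    simp only [hM2]
    rw [sum_boole]
    by_cases heC : e ∈ C
    · have : (univ.filter fun c => e ∈ D c) = {col ⟨e, heC⟩} := by
        ext c
        rw [mem_filter, mem_singleton, hDC c ⟨e, heC⟩]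
        simp [eq_comm]
      rw [this, card_singleton, if_pos heC, if_pos (hCH heC)]
      norm_num
    · by_cases heH : e ∈ H
      · obtain ⟨v, hv, hv2⟩ := hdom e heH
        obtain ⟨q, hq, hq2⟩ := hcover ⟨v, hv2⟩ e heH heC hv
        have : (univ.filter fun c => e ∈ D c) = {col (l (pos q)), col (r (pos q))} := by
          ext c
          rw [mem_filter, mem_insert, mem_singleton, ← hq2, hDq, hpr]
          simp [eq_comm]
        rw [this, card_pair (hprop q), if_neg heC, if_pos heH]
        norm_num
      · have : (univ.filter fun c => e ∈ D c) = ∅ := by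
          rw [eq_empty_iff_forall_notMem]
          intro c hc
          rw [mem_filter, hD] at hc
          exact heH hc.2.1
        rw [this, card_empty, if_neg heC, if_neg heH]
        norm_num


end covers

/-- Sanity check of the definitions: the graph with two vertices and three parallel edges is cubic
and has a dominating circuit. -/
theorem sanity : ∃ (G : MGraph (Fin 2) (Fin 3)) (C : Finset (Fin 3)),
    IsCubic G ∧ IsCircuit G C ∧ IsDominating G C := by
  refine ⟨⟨fun _ => s(0, 1), fun _ => by simp⟩, {0, 1}, ?_, ⟨⟨0, by simp⟩, ?_, ?_⟩, ?_⟩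
  · intro v; fin_cases v <;> rfl
  · intro v; right; fin_cases v <;> rfl
  · intro e _ f hf
    exact Relation.ReflTransGen.single ⟨hf, 0, by simp, by simp⟩
  · intro e
    exact ⟨0, by simp, 0, by simp, by simp⟩

/-- Every dominating circuit of a cubic graph belongs to a circuit double cover. -/
theorem result {V E : Type} [Fintype V] [DecidableEq V] [Fintype E] [DecidableEq E]
    (G : MGraph V E) (hG : IsCubic G) (C : Finset E) (hC : IsCircuit G C)
    (hdom : IsDominating G C) :
    ∃ F : Multiset (Finset E), IsCDC G F ∧ C ∈ F := by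
  obtain ⟨F, hF1, hF2, hF3⟩ := dominating_general G univ C (subset_univ _) hC
    (fun v _ => Or.inr (hG v)) (fun v _ => Or.inr (hG v)) (by
      intro e _
      obtain ⟨v, hv, f, hf, hvf⟩ := hdom e
      refine ⟨v, hv, (hC.2.1 v).resolve_left ?_⟩
      unfold dg
      rw [card_eq_zero]
      intro h
      have : f ∈ C.filter fun e => v ∈ G.ends e := mem_filter.2 ⟨hf, hvf⟩
      rw [h] at this
      exact absurd this (notMem_empty _))
  refine ⟨F, ⟨hF1, fun e => ?_⟩, hF3⟩
  rw [hF2 e, if_pos (mem_univ e)]

end Pool.Agent.Results.MP_5e3363_co.DominatingCircuits
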